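import Mathlib

set_option autoImplicit false

/-! Sums over the maximal chains of an interval of shapes. -/

namespace Pool.Agent.HH39TZ

open Finset
open scoped Classical

variable {a : ℕ}

/-- add a box in row `i` -/
def up (μ : Fin a → ℕ) (i : Fin a) : Fin a → ℕ := Function.update μ i (μ i + 1)

/-- remove a box from row `i` -/
def dn (μ : Fin a → ℕ) (i : Fin a) : Fin a → ℕ := Function.update μ i (μ i - 1)

lemma up_self (μ : Fin a → ℕ) (i : Fin a) : up μ i i = μ i + 1 := by simp [up]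
lemma up_ne (μ : Fin a → ℕ) (i j : Fin a) (h : j ≠ i) : up μ i j = μ j := by simp [up, h]
lemma dn_self (μ : Fin a → ℕ) (i : Fin a) : dn μ i i = μ i - 1 := by simp [dn]
lemma dn_ne (μ : Fin a → ℕ) (i j : Fin a) (h : j ≠ i) : dn μ i j = μ j := by simp [dn, h]

lemma dn_up (μ : Fin a → ℕ) (i : Fin a) : dn (up μ i) i = μ := by
  funext j
  by_cases h : j = i
  · subst h; rw [dn_self, up_self]; rfl
  · rw [dn_ne _ _ _ h, up_ne _ _ _ h]

lemma up_dn (μ : Fin a → ℕ) (i : Fin a) (hi : 0 < μ i) : up (dn μ i) i = μ := by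
  funext j
  by_cases h : j = i
  · subst h; rw [up_self, dn_self]; omega
  · rw [up_ne _ _ _ h, dn_ne _ _ _ h]

lemma dn_up_comm (μ : Fin a → ℕ) (i m : Fin a) (h : m ≠ i) : dn (up μ i) m = up (dn μ m) i := by
  funext j
  by_cases h1 : j = m
  · subst h1; rw [dn_self, up_ne _ _ _ h, up_ne _ _ _ h, dn_self]
  · rw [dn_ne _ _ _ h1]
    by_cases h2 : j = i
    · subst h2; rw [up_self, up_self, dn_ne _ _ _ h1]
    · rw [up_ne _ _ _ h2, up_ne _ _ _ h2, dn_ne _ _ _ h1]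

lemma sum_up (μ : Fin a → ℕ) (i : Fin a) : ∑ j, up μ i j = ∑ j, μ j + 1 := by
  rw [← add_sum_erase univ _ (mem_univ i), ← add_sum_erase univ μ (mem_univ i), up_self]
  have : ∑ x ∈ univ.erase i, up μ i x = ∑ x ∈ univ.erase i, μ x :=
    sum_congr rfl fun j hj => up_ne _ _ _ (ne_of_mem_erase hj)
  rw [this]; ring

/-- rows where a box can be added -/
noncomputable def Aset (X : Finset (Fin a → ℕ)) (μ : Fin a → ℕ) : Finset (Fin a) :=
  univ.filter fun i => up μ i ∈ X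

/-- rows where a box can be removed -/
noncomputable def Rset (X : Finset (Fin a → ℕ)) (μ : Fin a → ℕ) : Finset (Fin a) :=
  univ.filter fun i => 0 < μ i ∧ dn μ i ∈ X

lemma mem_Aset {X : Finset (Fin a → ℕ)} {μ : Fin a → ℕ} {i : Fin a} :
    i ∈ Aset X μ ↔ up μ i ∈ X := by simp [Aset]

lemma mem_Rset {X : Finset (Fin a → ℕ)} {μ : Fin a → ℕ} {i : Fin a} :
    i ∈ Rset X μ ↔ 0 < μ i ∧ dn μ i ∈ X := by simp [Rset]

lemma exch (X : Finset (Fin a → ℕ)) (K : (Fin a → ℕ) → Fin a → ℚ) :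
    ∑ μ ∈ X, ∑ i ∈ Aset X μ, K μ i = ∑ ν ∈ X, ∑ i ∈ Rset X ν, K (dn ν i) i := by
  rw [sum_sigma', sum_sigma']
  refine sum_bij' (fun p _ => ⟨up p.1 p.2, p.2⟩) (fun p _ => ⟨dn p.1 p.2, p.2⟩) ?_ ?_ ?_ ?_ ?_
  · rintro ⟨μ, i⟩ h
    simp only [mem_sigma, mem_Aset, mem_Rset] at h ⊢
    exact ⟨h.2, by rw [up_self]; omega, by rw [dn_up]; exact h.1⟩
  · rintro ⟨μ, i⟩ h
    simp only [mem_sigma, mem_Aset, mem_Rset] at h ⊢
    exact ⟨h.2.2, by rw [up_dn _ _ h.2.1]; exact h.1⟩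
  · rintro ⟨μ, i⟩ h
    simp [dn_up]
  · rintro ⟨μ, i⟩ h
    simp only [mem_sigma, mem_Rset] at h
    simp [up_dn _ _ h.2.1]
  · rintro ⟨μ, i⟩ h
    simp [dn_up]

section toggle

variable (X : Finset (Fin a → ℕ)) (lam : Fin a → ℕ) (e h : (Fin a → ℕ) → ℚ)

theorem toggle
    (hE : ∀ ν ∈ X, ν ≠ 0 → e ν = ∑ i ∈ Rset X ν, e (dn ν i))
    (hH : ∀ μ ∈ X, μ ≠ lam → h μ = ∑ i ∈ Aset X μ, h (up μ i))
    (hlam : ∀ i, up lam i ∉ X)
    (C1 : ∀ μ i m, m ≠ i → μ ∈ X → up μ i ∈ X → 0 < μ m → dn (up μ i) m ∈ X → dn μ m ∈ X)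
    (C2 : ∀ μ i m, m ≠ i → μ ∈ X → up μ i ∈ X → up μ m ∈ X → up (up μ m) i ∈ X)
    (i : Fin a) (f : ℕ → ℚ) :
    ∑ ν ∈ X, (if i ∈ Rset X ν then f (ν i) * (e ν * h ν) else 0) =
      ∑ μ ∈ X, (if i ∈ Aset X μ then f (μ i + 1) * (e μ * h μ) else 0) := by
  have hL : ∑ ν ∈ X, (if i ∈ Rset X ν then f (ν i) * (e ν * h ν) else 0) =
      ∑ μ ∈ X.filter (fun μ => up μ i ∈ X), f (μ i + 1) * (e (up μ i) * h (up μ i)) := by
    rw [← sum_filter]
    refine sum_bij' (fun ν _ => dn ν i) (fun μ _ => up μ i) ?_ ?_ ?_ ?_ ?_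
    · intro ν hν
      rw [mem_filter, mem_Rset] at hν
      rw [mem_filter, up_dn _ _ hν.2.1]
      exact ⟨hν.2.2, hν.1⟩
    · intro μ hμ
      rw [mem_filter] at hμ
      rw [mem_filter, mem_Rset, dn_up, up_self]
      exact ⟨hμ.2, by omega, hμ.1⟩
    · intro ν hν
      rw [mem_filter, mem_Rset] at hν
      exact up_dn _ _ hν.2.1
    · intro μ _
      exact dn_up _ _
    · intro ν hν
      rw [mem_filter, mem_Rset] at hν
      rw [up_dn _ _ hν.2.1, dn_self]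
      congr 2
      omega
  have hR : ∑ μ ∈ X, (if i ∈ Aset X μ then f (μ i + 1) * (e μ * h μ) else 0) =
      ∑ μ ∈ X.filter (fun μ => up μ i ∈ X), f (μ i + 1) * (e μ * h μ) := by
    rw [← sum_filter]
    refine sum_congr ?_ fun _ _ => rfl
    ext μ; simp [mem_Aset]
  rw [hL, hR]
  set Y := X.filter (fun μ => up μ i ∈ X) with hY
  have e1 : ∀ μ ∈ Y, h (up μ i) = h μ - ∑ m ∈ (Aset X μ).erase i, h (up μ m) := by
    intro μ hμ
    rw [hY, mem_filter] at hμ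
    have hne : μ ≠ lam := by
      rintro rfl
      exact hlam i hμ.2
    rw [hH μ hμ.1 hne, ← add_sum_erase _ _ (mem_Aset.mpr hμ.2)]
    ring
  have e2 : ∀ μ ∈ Y, e μ = e (up μ i) - ∑ m ∈ (Rset X (up μ i)).erase i, e (dn (up μ i) m) := by
    intro μ hμ
    rw [hY, mem_filter] at hμ
    have hne : up μ i ≠ 0 := by
      intro h0
      have := congrFun h0 i
      rw [up_self] at this
      simp at this
    have hmem : i ∈ Rset X (up μ i) := by
      rw [mem_Rset, dn_up, up_self]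
      exact ⟨by omega, hμ.1⟩
    rw [hE _ hμ.2 hne, ← add_sum_erase _ _ hmem, dn_up]
    ring
  have h1 : ∑ μ ∈ Y, f (μ i + 1) * (e (up μ i) * h (up μ i)) =
      ∑ μ ∈ Y, f (μ i + 1) * (e (up μ i) * h μ) -
      ∑ μ ∈ Y, ∑ m ∈ (Aset X μ).erase i, f (μ i + 1) * (e (up μ i) * h (up μ m)) := by
    rw [← sum_sub_distrib]
    refine sum_congr rfl fun μ hμ => ?_
    rw [e1 μ hμ, ← mul_sum, ← mul_sum]
    ring
  have h2 : ∑ μ ∈ Y, f (μ i + 1) * (e μ * h μ) =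
      ∑ μ ∈ Y, f (μ i + 1) * (e (up μ i) * h μ) -
      ∑ μ ∈ Y, ∑ m ∈ (Rset X (up μ i)).erase i, f (μ i + 1) * (e (dn (up μ i) m) * h μ) := by
    rw [← sum_sub_distrib]
    refine sum_congr rfl fun μ hμ => ?_
    rw [← mul_sum, ← sum_mul]
    conv_lhs => rw [e2 μ hμ]
    ring
  rw [h1, h2]
  congr 1
  rw [sum_sigma', sum_sigma']
  refine sum_bij' (fun p _ => ⟨up p.1 p.2, p.2⟩) (fun p _ => ⟨dn p.1 p.2, p.2⟩) ?_ ?_ ?_ ?_ ?_
  · rintro ⟨μ, m⟩ hp
    simp only [mem_sigma, hY, mem_filter, mem_erase, mem_Aset, mem_Rset] at hp ⊢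
    obtain ⟨⟨hμ, hi⟩, hm, hum⟩ := hp
    refine ⟨⟨hum, C2 μ i m hm hμ hi hum⟩, hm, ?_, ?_⟩
    · rw [up_ne _ _ _ hm, up_self]; omega
    · rw [dn_up_comm _ _ _ hm, dn_up]; exact hi
  · rintro ⟨ν, m⟩ hp
    simp only [mem_sigma, hY, mem_filter, mem_erase, mem_Aset, mem_Rset] at hp ⊢
    obtain ⟨⟨hν, hi⟩, hm, hpos, hd⟩ := hp
    rw [up_ne _ _ _ hm] at hpos
    refine ⟨⟨C1 ν i m hm hν hi hpos hd, ?_⟩, hm, ?_⟩
    · rw [← dn_up_comm _ _ _ hm]; exact hd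
    · rw [up_dn _ _ hpos]; exact hν
  · rintro ⟨μ, m⟩ _
    simp [dn_up]
  · rintro ⟨ν, m⟩ hp
    simp only [mem_sigma, hY, mem_filter, mem_erase, mem_Rset] at hp
    obtain ⟨⟨hν, hi⟩, hm, hpos, hd⟩ := hp
    rw [up_ne _ _ _ hm] at hpos
    simp [up_dn _ _ hpos]
  · rintro ⟨μ, m⟩ hp
    simp only [mem_sigma, hY, mem_filter, mem_erase, mem_Aset] at hp
    obtain ⟨⟨hμ, hi⟩, hm, hum⟩ := hp
    simp only
    rw [dn_up_comm _ _ _ hm, dn_up, up_ne _ _ _ (Ne.symm hm)]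

theorem pathsum (B φ : (Fin a → ℕ) → ℚ)
    (hE0 : e 0 = 1) (h0 : (0 : Fin a → ℕ) ∈ X)
    (hE : ∀ ν ∈ X, ν ≠ 0 → e ν = ∑ i ∈ Rset X ν, e (dn ν i))
    (hB : ∀ μ ∈ X, B μ = φ μ * h μ + ∑ i ∈ Aset X μ, B (up μ i)) :
    ∑ μ ∈ X, φ μ * (e μ * h μ) = B 0 := by
  have h1 : ∑ μ ∈ X, φ μ * (e μ * h μ) = ∑ μ ∈ X, e μ * B μ -
      ∑ μ ∈ X, ∑ i ∈ Aset X μ, e μ * B (up μ i) := by
    rw [← sum_sub_distrib]
    refine sum_congr rfl fun μ hμ => ?_
    rw [← mul_sum]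
    conv_rhs => rw [hB μ hμ]
    ring
  rw [h1, exch X (fun μ i => e μ * B (up μ i)), ← sum_sub_distrib]
  have h2 : ∀ ν ∈ X, e ν * B ν - ∑ i ∈ Rset X ν, e (dn ν i) * B (up (dn ν i) i) =
      if ν = 0 then B 0 else 0 := by
    intro ν hν
    have h3 : ∑ i ∈ Rset X ν, e (dn ν i) * B (up (dn ν i) i) = (∑ i ∈ Rset X ν, e (dn ν i)) * B ν := by
      rw [sum_mul]
      refine sum_congr rfl fun i hi => ?_
      rw [up_dn _ _ (mem_Rset.mp hi).1]
    rw [h3]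
    split_ifs with h4
    · subst h4
      have : Rset X (0 : Fin a → ℕ) = ∅ := by
        ext i; simp [mem_Rset]
      rw [this, sum_empty, hE0]; ring
    · rw [← hE ν hν h4]; ring
  rw [sum_congr rfl h2, sum_ite_eq' X 0]
  simp [h0]

theorem gsum (G ind : (Fin a → ℕ) → ℚ) (hl : lam ∈ X)
    (hG : ∀ ν ∈ X, G ν = ind ν * e ν + ∑ i ∈ Rset X ν, G (dn ν i))
    (hH : ∀ μ ∈ X, μ ≠ lam → h μ = ∑ i ∈ Aset X μ, h (up μ i))
    (hlam : ∀ i, up lam i ∉ X) :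
    ∑ μ ∈ X, ind μ * (e μ * h μ) = G lam * h lam := by
  have h1 : ∑ μ ∈ X, ind μ * (e μ * h μ) = ∑ μ ∈ X, G μ * h μ -
      ∑ ν ∈ X, ∑ i ∈ Rset X ν, G (dn ν i) * h (up (dn ν i) i) := by
    rw [← sum_sub_distrib]
    refine sum_congr rfl fun μ hμ => ?_
    have h3 : ∑ i ∈ Rset X μ, G (dn μ i) * h (up (dn μ i) i) = (∑ i ∈ Rset X μ, G (dn μ i)) * h μ := by
      rw [sum_mul]
      refine sum_congr rfl fun i hi => ?_
      rw [up_dn _ _ (mem_Rset.mp hi).1]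
    rw [h3]
    conv_rhs => rw [hG μ hμ]
    ring
  rw [h1, ← exch X (fun μ i => G μ * h (up μ i)), ← sum_sub_distrib]
  have h2 : ∀ μ ∈ X, G μ * h μ - ∑ i ∈ Aset X μ, G μ * h (up μ i) =
      if μ = lam then G lam * h lam else 0 := by
    intro μ hμ
    rw [← mul_sum]
    split_ifs with h4
    · subst h4
      have : Aset X μ = ∅ := by
        ext i; simp [mem_Aset, hlam]
      rw [this, sum_empty]; ring
    · rw [← hH μ hμ h4]; ring
  rw [sum_congr rfl h2, sum_ite_eq' X lam]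
  simp [hl]

end toggle

/-! ### words -/

/-- the number of letters `i` among the first `j` letters of `w` -/
noncomputable def cnt {M : ℕ} (w : Fin M → Fin a) (j : ℕ) (i : Fin a) : ℕ :=
  (univ.filter (fun t : Fin M => (t : ℕ) < j ∧ w t = i)).card

lemma cnt_zero {M : ℕ} (w : Fin M → Fin a) (i : Fin a) : cnt w 0 i = 0 := by
  simp [cnt]

lemma cnt_cons {M : ℕ} (i0 : Fin a) (w : Fin M → Fin a) (j : ℕ) (i : Fin a) :
    cnt (Fin.cons i0 w : Fin (M + 1) → Fin a) (j + 1) i = (if i0 = i then 1 else 0) + cnt w j i := by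
  unfold cnt
  rw [card_filter, card_filter, Fin.sum_univ_succ]
  simp

variable (V : (Fin a → ℕ) → Prop) (lam : Fin a → ℕ)

/-- the condition on a word -/
def Good (M : ℕ) (μ : Fin a → ℕ) (w : Fin M → Fin a) : Prop :=
  (∀ j ≤ M, V (fun i => μ i + cnt w j i)) ∧ ∀ i, μ i + cnt w M i = lam i

/-- number of words -/
noncomputable def CT (M : ℕ) (μ : Fin a → ℕ) : ℚ :=
  ∑ w : Fin M → Fin a, if Good V lam M μ w then 1 else 0

/-- sum over words -/
noncomputable def PS (φ : (Fin a → ℕ) → ℚ) (M : ℕ) (μ : Fin a → ℕ) : ℚ :=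
  ∑ w : Fin M → Fin a, if Good V lam M μ w then
    ∑ j ∈ range (M + 1), φ (fun i => μ i + cnt w j i) else 0

lemma add_cnt_cons {M : ℕ} (μ : Fin a → ℕ) (i0 : Fin a) (w : Fin M → Fin a) (j : ℕ) :
    (fun i => μ i + cnt (Fin.cons i0 w : Fin (M + 1) → Fin a) (j + 1) i) =
      fun i => up μ i0 i + cnt w j i := by
  funext i
  rw [cnt_cons]
  by_cases h : i = i0
  · subst h; rw [up_self, if_pos rfl]; ring
  · rw [up_ne _ _ _ h, if_neg (Ne.symm h)]; ring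

lemma add_cnt_zero {M : ℕ} (μ : Fin a → ℕ) (w : Fin M → Fin a) :
    (fun i => μ i + cnt w 0 i) = μ := by
  funext i; rw [cnt_zero]; rfl

lemma good_cons (M : ℕ) (μ : Fin a → ℕ) (i0 : Fin a) (w : Fin M → Fin a) :
    Good V lam (M + 1) μ (Fin.cons i0 w : Fin (M + 1) → Fin a) ↔ V μ ∧ Good V lam M (up μ i0) w := by
  unfold Good
  constructor
  · rintro ⟨h1, h2⟩
    refine ⟨?_, ?_, ?_⟩
    · have := h1 0 (Nat.zero_le _)
      rwa [add_cnt_zero] at this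
    · intro j hj
      have := h1 (j + 1) (by omega)
      rwa [add_cnt_cons] at this
    · intro i
      have := h2 i
      have h3 := congrFun (add_cnt_cons μ i0 w M) i
      beta_reduce at h3
      rw [← h3]; exact this
  · rintro ⟨h0, h1, h2⟩
    refine ⟨?_, ?_⟩
    · intro j hj
      rcases Nat.eq_zero_or_pos j with rfl | hj0
      · rw [add_cnt_zero]; exact h0
      · obtain ⟨j', rfl⟩ : ∃ j', j = j' + 1 := ⟨j - 1, by omega⟩
        rw [add_cnt_cons]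
        exact h1 j' (by omega)
    · intro i
      have h3 := congrFun (add_cnt_cons μ i0 w M) i
      beta_reduce at h3
      rw [h3]; exact h2 i

lemma sum_cons {M : ℕ} (F : (Fin (M + 1) → Fin a) → ℚ) :
    ∑ w : Fin (M + 1) → Fin a, F w = ∑ i0 : Fin a, ∑ w : Fin M → Fin a, F (Fin.cons i0 w) := by
  rw [← Fintype.sum_prod_type' (f := fun i0 w => F (Fin.cons i0 w))]
  symm
  exact Fintype.sum_equiv (Fin.consEquiv (fun _ : Fin (M + 1) => Fin a)) _ _ (fun p => rfl)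

lemma CT_succ (M : ℕ) (μ : Fin a → ℕ) (hV : V μ) :
    CT V lam (M + 1) μ = ∑ i, CT V lam M (up μ i) := by
  unfold CT
  rw [sum_cons]
  refine sum_congr rfl fun i _ => sum_congr rfl fun w _ => ?_
  simp only [good_cons, hV, true_and]

lemma CT_invalid (M : ℕ) (μ : Fin a → ℕ) (hV : ¬ V μ) : CT V lam M μ = 0 := by
  unfold CT
  refine sum_eq_zero fun w _ => ?_
  rw [if_neg]
  intro h
  have := h.1 0 (Nat.zero_le _)
  rw [add_cnt_zero] at this
  exact hV this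

lemma PS_invalid (φ : (Fin a → ℕ) → ℚ) (M : ℕ) (μ : Fin a → ℕ) (hV : ¬ V μ) :
    PS V lam φ M μ = 0 := by
  unfold PS
  refine sum_eq_zero fun w _ => ?_
  rw [if_neg]
  intro h
  have := h.1 0 (Nat.zero_le _)
  rw [add_cnt_zero] at this
  exact hV this

lemma PS_succ (φ : (Fin a → ℕ) → ℚ) (M : ℕ) (μ : Fin a → ℕ) (hV : V μ) :
    PS V lam φ (M + 1) μ = φ μ * CT V lam (M + 1) μ + ∑ i, PS V lam φ M (up μ i) := by
  rw [CT_succ V lam M μ hV, mul_sum, ← sum_add_distrib]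
  unfold PS CT
  rw [sum_cons]
  refine sum_congr rfl fun i _ => ?_
  rw [mul_sum, ← sum_add_distrib]
  refine sum_congr rfl fun w _ => ?_
  simp only [good_cons, hV, true_and]
  split_ifs with h
  · rw [sum_range_succ', add_cnt_zero, add_comm]
    congr 1
    · ring
    · refine sum_congr rfl fun j _ => ?_
      rw [add_cnt_cons]
  · simp

lemma CT_zero_lam (hV : V lam) : CT V lam 0 lam = 1 := by
  unfold CT
  have : ∀ w : Fin 0 → Fin a, Good V lam 0 lam w := by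
    intro w
    refine ⟨?_, ?_⟩
    · intro j hj
      have : j = 0 := by omega
      subst this
      rw [add_cnt_zero]; exact hV
    · intro i; rw [cnt_zero]; rfl
  simp [this]

lemma PS_zero_lam (φ : (Fin a → ℕ) → ℚ) (hV : V lam) : PS V lam φ 0 lam = φ lam := by
  unfold PS
  have : ∀ w : Fin 0 → Fin a, Good V lam 0 lam w := by
    intro w
    refine ⟨?_, ?_⟩
    · intro j hj
      have : j = 0 := by omega
      subst this
      rw [add_cnt_zero]; exact hV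
    · intro i; rw [cnt_zero]; rfl
  simp [this, add_cnt_zero]

variable (X : Finset (Fin a → ℕ))

/-- completions -/
noncomputable def hh (μ : Fin a → ℕ) : ℚ := CT V lam (∑ i, lam i - ∑ i, μ i) μ

/-- sums over completions -/
noncomputable def BB (φ : (Fin a → ℕ) → ℚ) (μ : Fin a → ℕ) : ℚ :=
  PS V lam φ (∑ i, lam i - ∑ i, μ i) μ

lemma lt_of_ne_lam (μ : Fin a → ℕ) (hle : ∀ i, μ i ≤ lam i) (hne : μ ≠ lam) :
    ∑ i, μ i < ∑ i, lam i := by
  apply sum_lt_sum (fun i _ => hle i)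
  by_contra hcon
  push Not at hcon
  apply hne
  funext i
  exact le_antisymm (hle i) (hcon i (mem_univ i))

lemma hh_rec (hX : ∀ μ, μ ∈ X ↔ V μ) (hle : ∀ μ, V μ → ∀ i, μ i ≤ lam i)
    (μ : Fin a → ℕ) (hμ : μ ∈ X) (hne : μ ≠ lam) :
    hh V lam μ = ∑ i ∈ Aset X μ, hh V lam (up μ i) := by
  have hV := (hX μ).mp hμ
  have hlt := lt_of_ne_lam lam μ (hle μ hV) hne
  unfold hh
  obtain ⟨M, hM⟩ : ∃ M, ∑ i, lam i - ∑ i, μ i = M + 1 := ⟨∑ i, lam i - ∑ i, μ i - 1, by omega⟩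
  have hM' : ∀ i, ∑ j, lam j - ∑ j, up μ i j = M := by
    intro i; rw [sum_up]; omega
  rw [hM, CT_succ V lam M μ hV, Aset, sum_filter]
  refine sum_congr rfl fun i _ => ?_
  rw [hM' i]
  split_ifs with h
  · rfl
  · exact CT_invalid V lam M _ (fun h2 => h ((hX _).mpr h2))

lemma BB_rec (φ : (Fin a → ℕ) → ℚ) (hX : ∀ μ, μ ∈ X ↔ V μ) (hle : ∀ μ, V μ → ∀ i, μ i ≤ lam i)
    (μ : Fin a → ℕ) (hμ : μ ∈ X) :
    BB V lam φ μ = φ μ * hh V lam μ + ∑ i ∈ Aset X μ, BB V lam φ (up μ i) := by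
  have hV := (hX μ).mp hμ
  by_cases hne : μ = lam
  · subst hne
    have hA : Aset X μ = ∅ := by
      ext i
      simp only [mem_Aset, notMem_empty, iff_false]
      intro h
      have := hle _ ((hX _).mp h) i
      rw [up_self] at this
      omega
    rw [hA, sum_empty]
    unfold BB hh
    rw [Nat.sub_self, CT_zero_lam V μ hV, PS_zero_lam V μ φ hV]
    ring
  · have hlt := lt_of_ne_lam lam μ (hle μ hV) hne
    unfold BB hh
    obtain ⟨M, hM⟩ : ∃ M, ∑ i, lam i - ∑ i, μ i = M + 1 := ⟨∑ i, lam i - ∑ i, μ i - 1, by omega⟩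
    have hM' : ∀ i, ∑ j, lam j - ∑ j, up μ i j = M := by
      intro i; rw [sum_up]; omega
    rw [hM, PS_succ V lam φ M μ hV, Aset, sum_filter]
    congr 1
    refine sum_congr rfl fun i _ => ?_
    rw [hM' i]
    split_ifs with h
    · rfl
    · exact PS_invalid V lam φ M _ (fun h2 => h ((hX _).mpr h2))

end Pool.Agent.HH39TZ
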