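import Pool.Agent.HH39TZ.Shape

set_option autoImplicit false

/-! Counting the shapes. -/

namespace Pool.Agent.HH39TZ

open Finset
open scoped Classical

variable {n k : ℕ}

/-- ballot numbers -/
noncomputable def Q (m : ℕ) : ℕ → ℚ
  | 0 => 1
  | 1 => m
  | j + 2 => (m.choose (j + 2) : ℚ) - m.choose j

lemma Q_pascal (m j : ℕ) : Q (m + 1) (j + 1) = Q m (j + 1) + Q m j := by
  rcases j with _ | _ | j
  · simp [Q]
  · simp only [Q]
    rw [Nat.choose_succ_succ' m 1]
    push_cast
    simp
    ring
  · simp only [Q]
    rw [Nat.choose_succ_succ' m (j + 2), Nat.choose_succ_succ' m j]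
    push_cast
    ring

lemma Q_zero (j : ℕ) : Q (2 * j) (j + 1) = 0 := by
  rcases j with _ | j
  · simp [Q]
  · simp only [Q]
    have : (2 * (j + 1)).choose (j + 2) = (2 * (j + 1)).choose j := by
      rw [← Nat.choose_symm (by omega : j ≤ 2 * (j + 1))]
      congr 1; omega
    rw [this]; ring

lemma Q_sum (j d : ℕ) : ∑ i ∈ range d, Q (2 * j + i) j = Q (2 * j + d) (j + 1) := by
  induction d with
  | zero => simp [Q_zero]
  | succ d ih => rw [sum_range_succ, ih, ← Nat.add_assoc, Q_pascal]

lemma Q_sum' (j q d : ℕ) : ∑ x ∈ range (q + d + 1), (if q < x then Q (q + d + 2 * j - x) j else 0) =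
    Q (2 * j + d) (j + 1) := by
  have h1 : ∑ x ∈ range (q + d + 1), (if q < x then Q (q + d + 2 * j - x) j else 0) =
      ∑ x ∈ range d, Q (2 * j + x) j := by
    rw [← sum_range_reflect (fun x => Q (2 * j + x) j) d]
    have h2 : range (q + d + 1) = range ((q + 1) + d) := by congr 1; ring
    rw [h2, sum_range_add]
    have h3 : ∑ x ∈ range (q + 1), (if q < x then Q (q + d + 2 * j - x) j else 0) = 0 := by
      apply sum_eq_zero
      intro x hx
      rw [mem_range] at hx
      rw [if_neg (by omega)]
    rw [h3, zero_add]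
    refine sum_congr rfl fun x hx => ?_
    rw [mem_range] at hx
    rw [if_pos (by omega)]
    congr 1
    omega
  rw [h1, Q_sum]

/-- number of shapes with last part `q` -/
noncomputable def W (n k q : ℕ) : ℚ := if q = 0 then ((n + 1).choose k : ℚ) else Q (n - q) k

lemma W_total (h : 2 * k < n) : ∑ q ∈ range (n - 2 * k + 1), W n k q = ((n + 1).choose (k + 1) : ℚ) := by
  have h1 : ∑ q ∈ range (n - 2 * k + 1), W n k q = ((n + 1).choose k : ℚ) +
      ∑ x ∈ range (0 + (n - 2 * k) + 1), (if 0 < x then Q (0 + (n - 2 * k) + 2 * k - x) k else 0) := by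
    rw [zero_add, sum_range_succ', sum_range_succ' (fun x =>
      (if 0 < x then Q ((n - 2 * k) + 2 * k - x) k else 0))]
    have e1 : W n k 0 = ((n + 1).choose k : ℚ) := by simp [W]
    rw [e1]
    simp only [lt_irrefl, if_false, add_zero]
    rw [add_comm]
    congr 1
    refine sum_congr rfl fun x _ => ?_
    unfold W
    rw [if_neg (by omega), if_pos (by omega)]
    congr 1; omega
  rw [h1, Q_sum']
  have h2 : 2 * k + (n - 2 * k) = n := by omega
  rw [h2]
  rcases k with _ | k
  · simp [Q]; ring
  · simp only [Q]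
    rw [Nat.choose_succ_succ' n k, Nat.choose_succ_succ' n (k + 1)]
    push_cast; ring

lemma W_ge_two (h : 2 * k < n) : ∑ q ∈ range (n - 2 * k + 1), W n k q * (if 2 ≤ q then 1 else 0) =
    Q (n - 1) (k + 1) := by
  have h1 : ∑ q ∈ range (n - 2 * k + 1), W n k q * (if 2 ≤ q then 1 else 0) =
      ∑ x ∈ range (1 + (n - 2 * k - 1) + 1), (if 1 < x then Q (1 + (n - 2 * k - 1) + 2 * k - x) k else 0) := by
    have e : n - 2 * k + 1 = 1 + (n - 2 * k - 1) + 1 := by omega
    rw [e]
    refine sum_congr rfl fun x _ => ?_
    by_cases hx : 1 < x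
    · rw [if_pos hx, if_pos (by omega), mul_one]
      unfold W
      rw [if_neg (by omega)]
      congr 1; omega
    · rw [if_neg hx, if_neg (by omega), mul_zero]
  rw [h1, Q_sum']
  congr 1; omega

/-- the transfer step -/
lemma XX_sum (h : 2 * k < n) : ∀ φ : ℕ → ℚ, ∑ μ ∈ XX n k, φ (μ (Fin.last k)) =
    ∑ q ∈ range (n - 2 * k + 1), W n k q * φ q := by
  induction k with
  | zero =>
    intro φ
    refine sum_bij' (fun μ _ => μ 0) (fun q _ => fun _ => q) ?_ ?_ ?_ ?_ ?_
    · intro μ hμ
      have := (mem_XX.mp hμ).1 0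
      rw [mem_range]
      simpa [Nat.lt_succ_iff] using this
    · intro q hq
      rw [mem_range] at hq
      rw [mem_XX]
      refine ⟨fun i => ?_, fun i j hij => ?_⟩
      · have h0 : (i : ℕ) = 0 := by omega
        show q ≤ n - 2 * (i : ℕ)
        omega
      · exfalso; have h1 : (i : ℕ) < j := hij; omega
    · intro μ _
      funext i
      have : i = 0 := by ext; omega
      rw [this]
    · intro q _; rfl
    · intro μ _
      have e : W n 0 (μ 0) = 1 := by unfold W; split_ifs <;> simp [Q]
      rw [e, one_mul]; rfl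
  | succ k ih =>
    intro φ
    have ih' := ih (by omega)
    -- split off the last row
    have h1 : ∑ μ ∈ XX n (k + 1), φ (μ (Fin.last (k + 1))) =
        ∑ μ ∈ XX n k, ∑ q ∈ range (n - 2 * (k + 1) + 1),
          (if q = 0 ∨ q < μ (Fin.last k) then φ q else 0) := by
      simp_rw [← sum_filter]
      rw [sum_sigma']
      refine sum_bij' (fun μ _ => ⟨fun i => μ i.castSucc, μ (Fin.last (k + 1))⟩)
        (fun p _ => Fin.snoc p.1 p.2) ?_ ?_ ?_ ?_ ?_
      · intro μ hμ
        rw [mem_XX] at hμ
        simp only [mem_sigma, mem_filter, mem_range, mem_XX]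
        refine ⟨⟨fun i => ?_, fun i j hij => ?_⟩, ?_, ?_⟩
        · have := hμ.1 i.castSucc
          simpa using this
        · exact hμ.2 i.castSucc j.castSucc (by simpa using hij)
        · have := hμ.1 (Fin.last (k + 1))
          simp only [Fin.val_last] at this
          omega
        · exact hμ.2 (Fin.last k).castSucc (Fin.last (k + 1)) (Fin.castSucc_lt_last _)
      · rintro ⟨μ, q⟩ hp
        simp only [mem_sigma, mem_filter, mem_range, mem_XX] at hp ⊢
        obtain ⟨hV, hq1, hq2⟩ := hp
        refine ⟨fun i => ?_, fun i j hij => ?_⟩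
        · refine Fin.lastCases ?_ (fun i' => ?_) i
          · rw [Fin.snoc_last]; simp only [Fin.val_last]; omega
          · rw [Fin.snoc_castSucc]; simpa using hV.1 i'
        · revert hij
          refine Fin.lastCases ?_ (fun j' => ?_) j
          · intro hij
            revert hij
            refine Fin.lastCases ?_ (fun i' => ?_) i
            · intro hij; exact absurd hij (lt_irrefl _)
            · intro _
              rw [Fin.snoc_last, Fin.snoc_castSucc]
              rcases hq2 with h2 | h2
              · exact Or.inl h2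
              · right
                by_cases hi : i' = Fin.last k
                · rw [hi]; exact h2
                · rcases hV.2 i' (Fin.last k) (Fin.lt_last_iff_ne_last.mpr hi) with h3 | h3 <;> omega
          · intro hij
            have hi : (i : ℕ) < j' := by simpa [Fin.lt_def] using hij
            have hi' : i = (⟨i, by have := j'.2; omega⟩ : Fin (k + 1)).castSucc := by ext; simp
            rw [hi', Fin.snoc_castSucc, Fin.snoc_castSucc]
            exact hV.2 _ j' (by rw [Fin.lt_def]; exact hi)
      · intro μ _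
        simp only
        funext i
        refine Fin.lastCases ?_ (fun i' => ?_) i
        · rw [Fin.snoc_last]
        · rw [Fin.snoc_castSucc]
      · rintro ⟨μ, q⟩ _
        simp only [Fin.snoc_castSucc, Fin.snoc_last]
      · intro μ _
        rfl
    rw [h1, ih' (fun q' => ∑ q ∈ range (n - 2 * (k + 1) + 1), (if q = 0 ∨ q < q' then φ q else 0))]
    simp_rw [mul_sum]
    rw [sum_comm]
    refine sum_congr rfl fun q hq => ?_
    rw [mem_range] at hq
    have h2 : ∑ x ∈ range (n - 2 * k + 1), W n k x * (if q = 0 ∨ q < x then φ q else 0) =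
        (∑ x ∈ range (n - 2 * k + 1), (if q = 0 ∨ q < x then W n k x else 0)) * φ q := by
      rw [sum_mul]
      refine sum_congr rfl fun x _ => ?_
      split_ifs <;> ring
    rw [h2]
    congr 1
    by_cases hq0 : q = 0
    · subst hq0
      simp only [true_or, if_true]
      rw [W_total (by omega)]
      simp [W]
    · simp only [hq0, false_or]
      have h3 : ∑ x ∈ range (n - 2 * k + 1), (if q < x then W n k x else 0) =
          ∑ x ∈ range (q + (n - 2 * k - q) + 1),
            (if q < x then Q (q + (n - 2 * k - q) + 2 * k - x) k else 0) := by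
        have e : n - 2 * k + 1 = q + (n - 2 * k - q) + 1 := by omega
        rw [e]
        refine sum_congr rfl fun x _ => ?_
        by_cases hx : q < x
        · rw [if_pos hx, if_pos hx]
          unfold W
          rw [if_neg (by omega)]
          congr 1; omega
        · rw [if_neg hx, if_neg hx]
      rw [h3, Q_sum']
      unfold W
      rw [if_neg hq0]
      congr 1; omega

lemma card_XX (h : 2 * k < n) : ((XX n k).card : ℚ) = ((n + 1).choose (k + 1) : ℚ) := by
  have := XX_sum h (fun _ => 1)
  simp only [sum_const, nsmul_eq_mul, mul_one] at this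
  rw [this, W_total h]

lemma sum_ind (h : 2 * k < n) : ∑ μ ∈ XX n k, ind μ = Q (n - 1) (k + 1) := by
  have := XX_sum h (fun q => if 2 ≤ q then 1 else 0)
  unfold ind
  rw [this, W_ge_two h]

lemma ratio (h : 2 * k < n) : ((n : ℚ) + 1) * Q (n - 1) (k + 1) =
    ((n : ℚ) - 2 * k - 1) * ((n + 1).choose (k + 1) : ℚ) := by
  obtain ⟨N, rfl⟩ : ∃ N, n = N + 1 := ⟨n - 1, by omega⟩
  rw [Nat.add_sub_cancel]
  rcases k with _ | j
  · simp [Q]; ring
  · simp only [Q]
    have e1 : ((N + 1 + 1).choose (j + 1 + 1) : ℚ) = N.choose (j + 2) + 2 * N.choose (j + 1) + N.choose j := by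
      rw [Nat.choose_succ_succ' (N + 1) (j + 1), Nat.choose_succ_succ' N j,
        Nat.choose_succ_succ' N (j + 1)]
      push_cast; ring
    have e2 : ((j : ℚ) + 1) * N.choose (j + 1) = ((N : ℚ) - j) * N.choose j := by
      have := Nat.choose_succ_right_eq N j
      have h3 : ((N.choose (j + 1) * (j + 1) : ℕ) : ℚ) = ((N.choose j * (N - j) : ℕ) : ℚ) := by
        exact_mod_cast this
      rw [Nat.cast_mul, Nat.cast_mul, Nat.cast_sub (by omega)] at h3
      push_cast at h3
      linarith
    have e3 : ((j : ℚ) + 2) * N.choose (j + 2) = ((N : ℚ) - j - 1) * N.choose (j + 1) := by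
      have := Nat.choose_succ_right_eq N (j + 1)
      have h3 : ((N.choose (j + 1 + 1) * (j + 1 + 1) : ℕ) : ℚ) =
          ((N.choose (j + 1) * (N - (j + 1)) : ℕ) : ℚ) := by
        exact_mod_cast this
      rw [Nat.cast_mul, Nat.cast_mul, Nat.cast_sub (by omega)] at h3
      push_cast at h3
      linarith
    rw [e1]
    push_cast
    linear_combination 2 * e3 + 2 * e2

end Pool.Agent.HH39TZ
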