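import Mathlib

set_option autoImplicit false

/-! Product formula for the number of standard fillings of a shifted diagram, on finite sets of
positive integers, and its recursion (via Lagrange interpolation). -/

namespace Pool.Agent.HH39TZ

open Finset Polynomial

lemma lagr {ι : Type*} [DecidableEq ι] (s : Finset ι) (y z : ι → ℚ) (hy : Set.InjOn y s) :
    ∑ i ∈ s, (∏ j ∈ s, (y i - z j)) / ∏ j ∈ s.erase i, (y i - y j) = ∑ i ∈ s, (y i - z i) := by
  rcases s.eq_empty_or_nonempty with rfl | hs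
  · simp
  have hcard : 0 < #s := hs.card_pos
  set P : ℚ[X] := ∏ j ∈ s, (X - C (z j)) - ∏ j ∈ s, (X - C (y j)) with hP
  have hm1 : (∏ j ∈ s, (X - C (z j)) : ℚ[X]).Monic := monic_prod_of_monic _ _ fun j _ => monic_X_sub_C _
  have hm2 : (∏ j ∈ s, (X - C (y j)) : ℚ[X]).Monic := monic_prod_of_monic _ _ fun j _ => monic_X_sub_C _
  have hd1 : (∏ j ∈ s, (X - C (z j)) : ℚ[X]).degree = #s := by
    rw [degree_prod]; simp
  have hd2 : (∏ j ∈ s, (X - C (y j)) : ℚ[X]).degree = #s := by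
    rw [degree_prod]; simp
  have hdeg : P.degree < #s := by
    have := degree_sub_lt_left (hd1.trans hd2.symm) hm1.ne_zero (by rw [hm1.leadingCoeff, hm2.leadingCoeff])
    rwa [hd1] at this
  have h1 := Lagrange.coeff_eq_sum hy hdeg
  have h2 : P.coeff (#s - 1) = ∑ i ∈ s, (y i - z i) := by
    rw [hP, coeff_sub, prod_X_sub_C_coeff_card_pred s z hcard, prod_X_sub_C_coeff_card_pred s y hcard,
      sum_sub_distrib]
    ring
  rw [← h2, h1]
  refine sum_congr rfl fun i hi => ?_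
  congr 1
  rw [hP, eval_sub, eval_prod, eval_prod]
  have : ∏ j ∈ s, eval (y i) (X - C (y j)) = 0 := prod_eq_zero hi (by simp)
  rw [this]
  simp

/-- the key identity -/
lemma key (s : Finset ℕ) (hs : ∀ x ∈ s, 0 < x) :
    ∑ x ∈ s, (x : ℚ) * ∏ y ∈ s.erase x,
      (((x : ℚ) - 1 - y) * (x + y)) / ((x - y) * (x - 1 + y)) = ∑ x ∈ s, (x : ℚ) := by
  have hinj : Set.InjOn (fun x : ℕ => (x : ℚ) * (x - 1)) s := by
    intro a ha b hb hab
    have ha' : (1 : ℚ) ≤ a := by exact_mod_cast hs a ha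
    have hb' : (1 : ℚ) ≤ b := by exact_mod_cast hs b hb
    simp only at hab
    have h3 : ((a : ℚ) - b) * (a + b - 1) = 0 := by linarith
    rcases mul_eq_zero.mp h3 with h | h
    · exact_mod_cast sub_eq_zero.mp h
    · exfalso; linarith
  have h := lagr s (fun x : ℕ => (x : ℚ) * (x - 1)) (fun x : ℕ => (x : ℚ) * (x + 1)) hinj
  have h4 : ∑ i ∈ s, ((i : ℚ) * (i - 1) - i * (i + 1)) = -2 * ∑ x ∈ s, (x : ℚ) := by
    rw [mul_sum]
    exact sum_congr rfl fun i _ => by ring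
  have h5 : ∑ i ∈ s, (∏ j ∈ s, ((i : ℚ) * (i - 1) - j * (j + 1))) /
      ∏ j ∈ s.erase i, ((i : ℚ) * (i - 1) - j * (j - 1)) = -2 * ∑ x ∈ s, (x : ℚ) * ∏ y ∈ s.erase x,
      (((x : ℚ) - 1 - y) * (x + y)) / ((x - y) * (x - 1 + y)) := by
    rw [mul_sum]
    refine sum_congr rfl fun i hi => ?_
    rw [← mul_prod_erase s _ hi, mul_div_assoc, ← prod_div_distrib]
    have : ∀ y ∈ s.erase i, ((i : ℚ) * (i - 1) - y * (y + 1)) / (i * (i - 1) - y * (y - 1)) =
        (((i : ℚ) - 1 - y) * (i + y)) / ((i - y) * (i - 1 + y)) := by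
      intro y _
      congr 1 <;> ring
    rw [prod_congr rfl this]
    ring
  beta_reduce at h
  rw [h5, h4] at h
  linarith

/-- the symmetric factor -/
noncomputable def kap (x y : ℕ) : ℚ := |(x : ℚ) - y| / (x + y)

lemma kap_comm (x y : ℕ) : kap x y = kap y x := by
  unfold kap; rw [abs_sub_comm, add_comm]

/-- the product over pairs -/
noncomputable def E2 (s : Finset ℕ) : ℚ := ∏ x ∈ s, ∏ y ∈ s.filter (· < x), kap x y

lemma E2_insert (x : ℕ) (t : Finset ℕ) (hx : x ∉ t) :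
    E2 (insert x t) = E2 t * ∏ y ∈ t, kap x y := by
  unfold E2
  rw [prod_insert hx]
  have h1 : (insert x t).filter (· < x) = t.filter (· < x) := by
    ext z; simp only [mem_filter, mem_insert]
    constructor
    · rintro ⟨rfl | h, h2⟩
      · exact absurd h2 (lt_irrefl _)
      · exact ⟨h, h2⟩
    · rintro ⟨h, h2⟩; exact ⟨Or.inr h, h2⟩
  have h2 : ∀ z ∈ t, ∏ y ∈ (insert x t).filter (· < z), kap z y =
      (if x < z then kap x z else 1) * ∏ y ∈ t.filter (· < z), kap z y := by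
    intro z hz
    rw [filter_insert]
    split_ifs with h
    · rw [prod_insert (by simp [hx]), kap_comm]
    · rw [one_mul]
  rw [h1, prod_congr rfl h2, prod_mul_distrib, ← prod_filter]
  have h3 : ∏ y ∈ t, kap x y = (∏ y ∈ t.filter (· < x), kap x y) * ∏ y ∈ t.filter (x < ·), kap x y := by
    rw [← prod_filter_mul_prod_filter_not t (· < x)]
    congr 1
    refine prod_congr ?_ fun _ _ => rfl
    ext z; simp only [mem_filter, not_lt]
    constructor
    · rintro ⟨h, h2⟩; exact ⟨h, lt_of_le_of_ne h2 (by rintro rfl; exact hx h)⟩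
    · rintro ⟨h, h2⟩; exact ⟨h, h2.le⟩
  rw [h3]; ring

/-- the number of standard fillings -/
noncomputable def EE (s : Finset ℕ) : ℚ :=
  (((∑ x ∈ s, x).factorial : ℕ) : ℚ) / (∏ x ∈ s, (x.factorial : ℚ)) * E2 s

lemma EE_empty : EE ∅ = 1 := by simp [EE, E2]

lemma EE_insert (x : ℕ) (t : Finset ℕ) (hx : x ∉ t) :
    EE (insert x t) = (((x + ∑ y ∈ t, y).factorial : ℕ) : ℚ) /
      ((x.factorial : ℚ) * ∏ y ∈ t, (y.factorial : ℚ)) * (E2 t * ∏ y ∈ t, kap x y) := by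
  unfold EE
  rw [E2_insert x t hx, sum_insert hx, prod_insert hx]

lemma EE_insert_erase_zero (m : ℕ) (t : Finset ℕ) (hm : m ∉ t) (ht : ∀ y ∈ t, 0 < y) :
    EE ((insert m t).erase 0) = (((m + ∑ y ∈ t, y).factorial : ℕ) : ℚ) /
      ((m.factorial : ℚ) * ∏ y ∈ t, (y.factorial : ℚ)) * (E2 t * ∏ y ∈ t, kap m y) := by
  have h0 : (0 : ℕ) ∉ t := fun h => lt_irrefl _ (ht 0 h)
  rcases Nat.eq_zero_or_pos m with rfl | hpos
  · rw [erase_insert hm]
    have : ∏ y ∈ t, kap 0 y = 1 := by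
      apply prod_eq_one
      intro y hy
      have : (0 : ℚ) < y := by exact_mod_cast ht y hy
      unfold kap
      rw [Nat.cast_zero, zero_sub, abs_neg, abs_of_pos this, zero_add, div_self this.ne']
    rw [this]
    simp [EE]
  · rw [erase_eq_of_notMem, EE_insert m t hm]
    simp only [mem_insert, not_or]
    exact ⟨by omega, h0⟩

lemma kap_step (m y : ℕ) (hy : 0 < y) (hym : y ≠ m + 1) :
    kap m y = kap (m + 1) y * ((((m + 1 : ℕ) : ℚ) - 1 - y) * ((m + 1 : ℕ) + y) /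
      ((((m + 1 : ℕ) : ℚ) - y) * (((m + 1 : ℕ) : ℚ) - 1 + y))) := by
  unfold kap
  push_cast
  have hy' : (0 : ℚ) < y := by exact_mod_cast hy
  have hm' : (0 : ℚ) ≤ m := by positivity
  have e1 : (m : ℚ) + 1 - 1 - y = m - y := by ring
  have e2 : (m : ℚ) + 1 - 1 + y = m + y := by ring
  rw [e1, e2]
  have p1 : (m : ℚ) + y ≠ 0 := by positivity
  have p2 : (m : ℚ) + 1 + y ≠ 0 := by positivity
  rcases Nat.lt_or_gt_of_ne hym with h | h
  · have h1 : (y : ℚ) ≤ m := by exact_mod_cast Nat.lt_succ_iff.mp h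
    rw [abs_of_nonneg (by linarith), abs_of_nonneg (by linarith : (0 : ℚ) ≤ (m : ℚ) + 1 - y)]
    have p3 : (m : ℚ) + 1 - y ≠ 0 := by linarith
    field_simp
  · have h1 : (m : ℚ) + 2 ≤ y := by exact_mod_cast h
    rw [abs_of_nonpos (by linarith), abs_of_nonpos (by linarith : (m : ℚ) + 1 - y ≤ 0)]
    have p3 : (m : ℚ) + 1 - y ≠ 0 := by linarith
    field_simp

/-- one step down -/
lemma EE_step (s : Finset ℕ) (hs : ∀ x ∈ s, 0 < x) (x : ℕ) (hx : x ∈ s) (hx1 : x - 1 ∉ s) :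
    EE ((insert (x - 1) (s.erase x)).erase 0) = EE s * ((x : ℚ) * ∏ y ∈ s.erase x,
      (((x : ℚ) - 1 - y) * (x + y)) / ((x - y) * (x - 1 + y))) / (∑ y ∈ s, (y : ℚ)) := by
  obtain ⟨m, rfl⟩ : ∃ m, x = m + 1 := ⟨x - 1, by have := hs x hx; omega⟩
  rw [Nat.add_sub_cancel] at hx1 ⊢
  set t := s.erase (m + 1) with ht
  have hst : s = insert (m + 1) t := (insert_erase hx).symm
  have htpos : ∀ y ∈ t, 0 < y := fun y hy => hs y (mem_of_mem_erase hy)
  have hmt : m ∉ t := fun h => hx1 (mem_of_mem_erase h)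
  have hmt' : m + 1 ∉ t := notMem_erase _ _
  rw [EE_insert_erase_zero m t hmt htpos]
  have e1 : EE s = (((m + 1 + ∑ y ∈ t, y).factorial : ℕ) : ℚ) /
      (((m + 1).factorial : ℚ) * ∏ y ∈ t, (y.factorial : ℚ)) * (E2 t * ∏ y ∈ t, kap (m + 1) y) := by
    conv_lhs => rw [hst]
    exact EE_insert _ _ hmt'
  have e2 : ∑ y ∈ s, (y : ℚ) = (m : ℚ) + 1 + ((∑ y ∈ t, y : ℕ) : ℚ) := by
    conv_lhs => rw [hst]
    rw [sum_insert hmt']
    push_cast; ring
  have e3 : ∏ y ∈ t, kap m y = (∏ y ∈ t, kap (m + 1) y) * ∏ y ∈ t,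
      ((((m + 1 : ℕ) : ℚ) - 1 - y) * ((m + 1 : ℕ) + y) /
      ((((m + 1 : ℕ) : ℚ) - y) * (((m + 1 : ℕ) : ℚ) - 1 + y))) := by
    rw [← prod_mul_distrib]
    refine prod_congr rfl fun y hy => kap_step m y (htpos y hy) ?_
    rintro rfl; exact hmt' hy
  rw [e1, e2, e3]
  set T := ∑ y ∈ t, y with hT
  set Q := ∏ y ∈ t, ((((m + 1 : ℕ) : ℚ) - 1 - y) * ((m + 1 : ℕ) + y) /
      ((((m + 1 : ℕ) : ℚ) - y) * (((m + 1 : ℕ) : ℚ) - 1 + y))) with hQ
  have f1 : ((m + 1 + T).factorial : ℚ) = ((m : ℚ) + 1 + T) * ((m + T).factorial : ℚ) := by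
    have : m + 1 + T = (m + T) + 1 := by ring
    rw [this, Nat.factorial_succ]; push_cast; ring
  have f2 : ((m + 1).factorial : ℚ) = ((m : ℚ) + 1) * (m.factorial : ℚ) := by
    rw [Nat.factorial_succ]; push_cast; ring
  have p1 : (m : ℚ) + 1 + T ≠ 0 := by positivity
  have p2 : (m : ℚ) + 1 ≠ 0 := by positivity
  have p3 : (m.factorial : ℚ) ≠ 0 := by exact_mod_cast m.factorial_ne_zero
  have p4 : (∏ y ∈ t, (y.factorial : ℚ)) ≠ 0 := prod_ne_zero_iff.mpr fun y _ => by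
    exact_mod_cast y.factorial_ne_zero
  rw [f1, f2]
  push_cast
  field_simp

/-- the recursion -/
theorem EE_rec (s : Finset ℕ) (hs : ∀ x ∈ s, 0 < x) (hne : s.Nonempty) :
    EE s = ∑ x ∈ s.filter (fun x => x - 1 ∉ s), EE ((insert (x - 1) (s.erase x)).erase 0) := by
  have hsum : (0 : ℚ) < ∑ y ∈ s, (y : ℚ) := by
    apply sum_pos _ hne
    intro x hx; exact_mod_cast hs x hx
  have h1 : ∑ x ∈ s.filter (fun x => x - 1 ∉ s), EE ((insert (x - 1) (s.erase x)).erase 0) =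
      ∑ x ∈ s.filter (fun x => x - 1 ∉ s), EE s * ((x : ℚ) * ∏ y ∈ s.erase x,
      (((x : ℚ) - 1 - y) * (x + y)) / ((x - y) * (x - 1 + y))) / (∑ y ∈ s, (y : ℚ)) := by
    refine sum_congr rfl fun x hx => ?_
    rw [mem_filter] at hx
    exact EE_step s hs x hx.1 hx.2
  have h2 : ∑ x ∈ s.filter (fun x => x - 1 ∉ s), EE s * ((x : ℚ) * ∏ y ∈ s.erase x,
      (((x : ℚ) - 1 - y) * (x + y)) / ((x - y) * (x - 1 + y))) / (∑ y ∈ s, (y : ℚ)) =
      ∑ x ∈ s, EE s * ((x : ℚ) * ∏ y ∈ s.erase x,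
      (((x : ℚ) - 1 - y) * (x + y)) / ((x - y) * (x - 1 + y))) / (∑ y ∈ s, (y : ℚ)) := by
    rw [sum_filter]
    refine sum_congr rfl fun x hx => ?_
    by_cases h : x - 1 ∈ s
    swap
    · rw [if_pos h]
    · rw [if_neg (not_not.mpr h)]
      have hx0 := hs x hx
      have hmem : x - 1 ∈ s.erase x := mem_erase.mpr ⟨by omega, h⟩
      have : ∏ y ∈ s.erase x, (((x : ℚ) - 1 - y) * (x + y)) / ((x - y) * (x - 1 + y)) = 0 := by
        apply prod_eq_zero hmem
        have : (((x - 1 : ℕ) : ℕ) : ℚ) = (x : ℚ) - 1 := by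
          rw [Nat.cast_sub hx0]; simp
        rw [this]; simp
      rw [this]; simp
  rw [h1, h2, ← sum_div, ← mul_sum, key s hs]
  field_simp

lemma EE_pos (s : Finset ℕ) (hs : ∀ x ∈ s, 0 < x) : 0 < EE s := by
  unfold EE E2
  apply mul_pos
  · apply div_pos
    · exact_mod_cast Nat.factorial_pos _
    · exact prod_pos fun x _ => by exact_mod_cast Nat.factorial_pos _
  · apply prod_pos
    intro x hx
    apply prod_pos
    intro y hy
    rw [mem_filter] at hy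
    unfold kap
    have h1 : (y : ℚ) < x := by exact_mod_cast hy.2
    have h2 : (0 : ℚ) < y := by exact_mod_cast hs y hy.1
    apply div_pos
    · rw [abs_pos]; linarith
    · linarith

/-- adding a part one -/
lemma EE_insert_one (s : Finset ℕ) (hs : ∀ x ∈ s, 1 < x) :
    EE (insert 1 s) = EE s * ((1 + ((∑ x ∈ s, x : ℕ) : ℚ)) * ∏ x ∈ s, (((x : ℚ) - 1) / (x + 1))) := by
  have h1 : 1 ∉ s := fun h => lt_irrefl _ (hs 1 h)
  rw [EE_insert 1 s h1]
  unfold EE
  have : ∏ y ∈ s, kap 1 y = ∏ x ∈ s, (((x : ℚ) - 1) / (x + 1)) := by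
    refine prod_congr rfl fun y hy => ?_
    have : (1 : ℚ) < y := by exact_mod_cast hs y hy
    unfold kap
    rw [Nat.cast_one, abs_sub_comm, abs_of_pos (by linarith), add_comm]
  rw [this, Nat.add_comm 1, Nat.factorial_succ]
  push_cast
  simp
  ring

end Pool.Agent.HH39TZ
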