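import Pool.Agent.HH39TZ.Star
import Pool.Agent.HH39TZ.Count

set_option autoImplicit false

/-! The two averages of the down-degree. -/

namespace Pool.Agent.HH39TZ

open Finset
open scoped Classical

variable {n k : ℕ}

/-- the uniform sum -/
theorem unif_sum (h : 2 * k < n) : ∑ μ ∈ XX n k, ((Rset (XX n k) μ).card : ℚ) =
    ((n : ℚ) + 1) / 4 * ((XX n k).card : ℚ) - ((n : ℚ) - 2 * k - 1) / 4 * ∑ μ ∈ XX n k, ind μ := by
  have h1 : ∑ μ ∈ XX n k, ((Rset (XX n k) μ).card : ℚ) =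
      ∑ μ ∈ XX n k, ∑ i ∈ Rset (XX n k) μ, cc n i (μ i) +
      ∑ μ ∈ XX n k, ∑ i ∈ Rset (XX n k) μ, (1 - cc n i (dn μ i i + 1)) := by
    rw [← sum_add_distrib]
    refine sum_congr rfl fun μ _ => ?_
    rw [← sum_add_distrib, card_eq_sum_ones, Nat.cast_sum]
    refine sum_congr rfl fun i hi => ?_
    have : dn μ i i + 1 = μ i := by rw [dn_self]; have := (mem_Rset.mp hi).1; omega
    rw [this]; push_cast; ring
  rw [h1, ← exch (XX n k) (fun μ i => 1 - cc n i (μ i + 1)), ← sum_add_distrib,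
    sum_congr rfl (fun μ hμ => star h (mem_XX.mp hμ)), sum_sub_distrib, sum_const, nsmul_eq_mul,
    ← mul_sum]
  ring

/-- weights of the chain distribution -/
noncomputable def wt (n k : ℕ) (μ : Fin (k + 1) → ℕ) : ℚ := ee μ * hh (VV n k) (lam n k) μ

lemma hh_rec' (μ : Fin (k + 1) → ℕ) (hμ : μ ∈ XX n k) (hne : μ ≠ lam n k) :
    hh (VV n k) (lam n k) μ = ∑ i ∈ Aset (XX n k) μ, hh (VV n k) (lam n k) (up μ i) :=
  hh_rec (VV n k) (lam n k) (XX n k) (fun _ => mem_XX) le_lam μ hμ hne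

theorem toggle' (i : Fin (k + 1)) (f : ℕ → ℚ) :
    ∑ ν ∈ XX n k, (if i ∈ Rset (XX n k) ν then f (ν i) * wt n k ν else 0) =
      ∑ μ ∈ XX n k, (if i ∈ Aset (XX n k) μ then f (μ i + 1) * wt n k μ else 0) :=
  toggle (XX n k) (lam n k) ee (hh (VV n k) (lam n k)) ee_rec hh_rec' up_lam C1 C2 i f

theorem chain_sum (h : 2 * k < n) : ∑ μ ∈ XX n k, ((Rset (XX n k) μ).card : ℚ) * wt n k μ =
    ((n : ℚ) + 1) / 4 * (∑ μ ∈ XX n k, wt n k μ) -
      ((n : ℚ) - 2 * k - 1) / 4 * ∑ μ ∈ XX n k, ind μ * wt n k μ := by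
  have h1 : ∑ μ ∈ XX n k, ((Rset (XX n k) μ).card : ℚ) * wt n k μ =
      ∑ μ ∈ XX n k, (∑ i ∈ Rset (XX n k) μ, cc n i (μ i)) * wt n k μ +
      ∑ i : Fin (k + 1), ∑ μ ∈ XX n k,
        (if i ∈ Rset (XX n k) μ then (fun p => 1 - cc n i p) (μ i) * wt n k μ else 0) := by
    rw [sum_comm, ← sum_add_distrib]
    refine sum_congr rfl fun μ _ => ?_
    have e1 : ∑ i : Fin (k + 1), (if i ∈ Rset (XX n k) μ then (fun p => 1 - cc n i p) (μ i) * wt n k μ
        else 0) = (∑ i ∈ Rset (XX n k) μ, (1 - cc n i (μ i))) * wt n k μ := by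
      rw [sum_mul, ← sum_filter]
      simp
    rw [e1, ← add_mul, ← sum_add_distrib, card_eq_sum_ones, Nat.cast_sum]
    congr 1
    refine sum_congr rfl fun i _ => ?_
    push_cast; ring
  have h2 : ∑ i : Fin (k + 1), ∑ μ ∈ XX n k,
        (if i ∈ Rset (XX n k) μ then (fun p => 1 - cc n i p) (μ i) * wt n k μ else 0) =
      ∑ μ ∈ XX n k, (∑ i ∈ Aset (XX n k) μ, (1 - cc n i (μ i + 1))) * wt n k μ := by
    rw [sum_congr rfl (fun i _ => toggle' i (fun p => 1 - cc n i p)), sum_comm]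
    refine sum_congr rfl fun μ _ => ?_
    rw [sum_mul, ← sum_filter]
    simp
  rw [h1, h2, ← sum_add_distrib, mul_sum, mul_sum, ← sum_sub_distrib]
  refine sum_congr rfl fun μ hμ => ?_
  rw [← add_mul, star h (mem_XX.mp hμ)]
  ring

lemma hh_lam (h : 2 * k < n) : hh (VV n k) (lam n k) (lam n k) = 1 := by
  unfold hh
  rw [Nat.sub_self, CT_zero_lam _ _ (mem_XX.mp (lam_mem h))]

lemma hh_zero (h : 2 * k < n) : hh (VV n k) (lam n k) 0 = ee (lam n k) := by
  have h1 := gsum (XX n k) (lam n k) ee (hh (VV n k) (lam n k)) ee (fun ν => if ν = 0 then 1 else 0)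
    (lam_mem h) ?_ hh_rec' up_lam
  · rw [hh_lam h, mul_one] at h1
    rw [← h1]
    simp only [ite_mul, one_mul, zero_mul]
    rw [sum_ite_eq' (XX n k) (0 : Fin (k + 1) → ℕ), if_pos zero_mem_XX, ee_zero, one_mul]
  · intro ν hν
    by_cases h0 : ν = 0
    · subst h0
      have : Rset (XX n k) (0 : Fin (k + 1) → ℕ) = ∅ := by
        ext i; simp [mem_Rset]
      rw [this]; simp
    · rw [if_neg h0, zero_mul, zero_add]
      exact ee_rec ν hν h0

lemma ind_sum (h : 2 * k < n) : ∑ μ ∈ XX n k, ind μ * wt n k μ = GG (lam n k) := by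
  have h1 := gsum (XX n k) (lam n k) ee (hh (VV n k) (lam n k)) GG ind
    (lam_mem h) GG_rec hh_rec' up_lam
  rw [hh_lam h, mul_one] at h1
  exact h1

theorem path_sum (φ : (Fin (k + 1) → ℕ) → ℚ) :
    ∑ μ ∈ XX n k, φ μ * wt n k μ = PS (VV n k) (lam n k) φ (∑ i, lam n k i) 0 := by
  have h1 := pathsum (XX n k) ee (hh (VV n k) (lam n k)) (BB (VV n k) (lam n k) φ) φ ee_zero
    zero_mem_XX ee_rec (fun μ hμ => BB_rec (VV n k) (lam n k) (XX n k) φ (fun _ => mem_XX) le_lam μ hμ)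
  unfold wt
  rw [h1]
  unfold BB
  simp

lemma hh_zero_eq : hh (VV n k) (lam n k) 0 = CT (VV n k) (lam n k) (∑ i, lam n k i) 0 := by
  unfold hh; simp

lemma one_sum (h : 2 * k < n) : ∑ μ ∈ XX n k, wt n k μ =
    (((∑ i, lam n k i : ℕ) : ℚ) + 1) * ee (lam n k) := by
  have h1 := path_sum (n := n) (k := k) (fun _ => 1)
  simp only [one_mul] at h1
  rw [h1, ← hh_zero h, hh_zero_eq]
  unfold PS CT
  rw [mul_sum]
  refine sum_congr rfl fun w _ => ?_
  split_ifs <;> simp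

lemma ee_pos (μ : Fin (k + 1) → ℕ) : 0 < ee μ := EE_pos _ sset_pos

lemma N_eq (h : 2 * k < n) : ((∑ i, lam n k i : ℕ) : ℚ) = ((n : ℚ) - k) * (k + 1) := by
  have key : ∀ t ≤ k, ((∑ i ∈ range (t + 1), (n - 2 * i) : ℕ) : ℚ) = ((n : ℚ) - t) * (t + 1) := by
    intro t
    induction t with
    | zero => intro _; simp
    | succ t ih =>
      intro ht
      rw [sum_range_succ, Nat.cast_add, ih (by omega), Nat.cast_sub (by omega)]
      push_cast; ring
  have h1 := key k le_rfl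
  have h2 : ∑ i, lam n k i = ∑ i ∈ range (k + 1), (n - 2 * i) := by
    rw [← Fin.sum_univ_eq_sum_range (fun i => n - 2 * i) (k + 1)]
    rfl
  rw [h2]; exact h1

lemma final_arith (n k : ℚ) (hn : n + 1 ≠ 0) :
    (n + 1) / 4 - (n - 2 * k - 1) / 4 * ((n - 2 * k - 1) / (n + 1)) = (n - k) * (k + 1) / (n + 1) := by
  field_simp; ring

/-- the uniform average -/
theorem unif_avg (h : 2 * k < n) :
    (∑ μ ∈ XX n k, ((Rset (XX n k) μ).card : ℚ)) / ((XX n k).card : ℚ) =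
      ((∑ i, lam n k i : ℕ) : ℚ) / ((n : ℚ) + 1) := by
  have hn : (n : ℚ) + 1 ≠ 0 := by positivity
  have hc : ((XX n k).card : ℚ) ≠ 0 := by
    rw [card_XX h]
    exact_mod_cast (Nat.choose_pos (by omega)).ne'
  rw [unif_sum h, sum_ind h, N_eq h, ← final_arith _ _ hn, sub_div, mul_div_assoc, div_self hc, mul_one]
  congr 1
  rw [mul_div_assoc]
  congr 1
  rw [card_XX h] at hc ⊢
  rw [div_eq_div_iff hc hn]
  have := ratio h
  linarith

/-- the chain average -/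
theorem chain_avg (h : 2 * k < n) :
    PS (VV n k) (lam n k) (fun μ => ((Rset (XX n k) μ).card : ℚ)) (∑ i, lam n k i) 0 /
      (CT (VV n k) (lam n k) (∑ i, lam n k i) 0 * (((∑ i, lam n k i : ℕ) : ℚ) + 1)) =
      ((∑ i, lam n k i : ℕ) : ℚ) / ((n : ℚ) + 1) := by
  have hn : (n : ℚ) + 1 ≠ 0 := by positivity
  rw [← path_sum, chain_sum h, one_sum h, ind_sum h, GG_lam h, ← hh_zero_eq, hh_zero h]
  have he := (ee_pos (lam n k)).ne'
  have hN : ((∑ i, lam n k i : ℕ) : ℚ) + 1 ≠ 0 := by positivity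
  rw [div_eq_iff (mul_ne_zero he hN)]
  conv_rhs => rw [N_eq h, ← final_arith _ _ hn]
  rw [N_eq h]
  ring

end Pool.Agent.HH39TZ
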