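import Pool.Agent.HH39TZ.Eset
import Pool.Agent.HH39TZ.Chain

set_option autoImplicit false

/-! Shapes inside the trapezoid. -/

namespace Pool.Agent.HH39TZ

open Finset
open scoped Classical

variable (n k : ℕ)

/-- strict partitions inside the trapezoid -/
def VV (μ : Fin (k + 1) → ℕ) : Prop :=
  (∀ i : Fin (k + 1), μ i ≤ n - 2 * (i : ℕ)) ∧ ∀ i j : Fin (k + 1), i < j → μ j = 0 ∨ μ j < μ i

/-- the finite set of shapes -/
noncomputable def XX : Finset (Fin (k + 1) → ℕ) :=
  (Fintype.piFinset fun _ => range (n + 1)).filter (VV n k)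

variable {n k}

lemma mem_XX {μ : Fin (k + 1) → ℕ} : μ ∈ XX n k ↔ VV n k μ := by
  unfold XX
  rw [mem_filter, Fintype.mem_piFinset, and_iff_right_iff_imp]
  intro h i
  rw [mem_range]
  have := h.1 i
  omega

lemma zero_mem_XX : (0 : Fin (k + 1) → ℕ) ∈ XX n k := by
  rw [mem_XX]
  exact ⟨fun i => Nat.zero_le _, fun i j _ => Or.inl rfl⟩

/-- the full shape -/
def lam (n k : ℕ) : Fin (k + 1) → ℕ := fun i => n - 2 * (i : ℕ)

lemma lam_mem (h : 2 * k < n) : lam n k ∈ XX n k := by
  rw [mem_XX]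
  refine ⟨fun i => le_rfl, fun i j hij => Or.inr ?_⟩
  unfold lam
  have h1 : (i : ℕ) < j := hij
  have h2 : (j : ℕ) < k + 1 := j.2
  omega

lemma le_lam (μ : Fin (k + 1) → ℕ) (h : VV n k μ) (i : Fin (k + 1)) : μ i ≤ lam n k i := h.1 i

lemma up_lam (i : Fin (k + 1)) : up (lam n k) i ∉ XX n k := by
  rw [mem_XX]
  intro h
  have := h.1 i
  rw [up_self] at this
  unfold lam at this
  omega

lemma dn_mem {μ : Fin (k + 1) → ℕ} (hμ : VV n k μ) (i : Fin (k + 1)) :
    dn μ i ∈ XX n k ↔ ∀ q, i < q → μ q = 0 ∨ μ q < μ i - 1 := by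
  rw [mem_XX]
  constructor
  · intro h q hq
    have := h.2 i q hq
    rw [dn_self, dn_ne _ _ _ (ne_of_gt hq)] at this
    exact this
  · intro h
    refine ⟨fun j => ?_, fun p q hpq => ?_⟩
    · by_cases hj : j = i
      · subst hj; rw [dn_self]; exact (Nat.sub_le _ _).trans (hμ.1 j)
      · rw [dn_ne _ _ _ hj]; exact hμ.1 j
    · by_cases hp : p = i
      · subst hp
        rw [dn_self, dn_ne _ _ _ (ne_of_gt hpq)]
        exact h q hpq
      · rw [dn_ne _ _ _ hp]
        by_cases hq : q = i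
        · subst hq
          rw [dn_self]
          rcases hμ.2 p q hpq with h1 | h1 <;> omega
        · rw [dn_ne _ _ _ hq]
          exact hμ.2 p q hpq

lemma up_mem {μ : Fin (k + 1) → ℕ} (hμ : VV n k μ) (i : Fin (k + 1)) :
    up μ i ∈ XX n k ↔ μ i + 1 ≤ n - 2 * (i : ℕ) ∧ ∀ p, p < i → μ i + 1 < μ p := by
  rw [mem_XX]
  constructor
  · intro h
    refine ⟨by have := h.1 i; rwa [up_self] at this, fun p hp => ?_⟩
    have := h.2 p i hp
    rw [up_self, up_ne _ _ _ (ne_of_lt hp)] at this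
    rcases this with h1 | h1
    · omega
    · exact h1
  · rintro ⟨h1, h2⟩
    refine ⟨fun j => ?_, fun p q hpq => ?_⟩
    · by_cases hj : j = i
      · subst hj; rw [up_self]; exact h1
      · rw [up_ne _ _ _ hj]; exact hμ.1 j
    · by_cases hq : q = i
      · subst hq
        rw [up_self, up_ne _ _ _ (ne_of_lt hpq)]
        exact Or.inr (h2 p hpq)
      · rw [up_ne _ _ _ hq]
        by_cases hp : p = i
        · subst hp
          rw [up_self]
          rcases hμ.2 p q hpq with h3 | h3 <;> omega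
        · rw [up_ne _ _ _ hp]
          exact hμ.2 p q hpq

lemma C1 (μ : Fin (k + 1) → ℕ) (i m : Fin (k + 1)) (hmi : m ≠ i) (hμ : μ ∈ XX n k)
    (_ : up μ i ∈ XX n k) (_ : 0 < μ m) (hd : dn (up μ i) m ∈ XX n k) : dn μ m ∈ XX n k := by
  have hV := mem_XX.mp hμ
  rw [dn_mem hV]
  intro q hq
  have hV2 := mem_XX.mp hd
  have h := hV2.2 m q hq
  rw [dn_self, dn_ne _ _ _ (ne_of_gt hq), up_ne _ _ _ hmi] at h
  by_cases hqi : q = i
  · subst hqi
    rw [up_self] at h
    omega
  · rwa [up_ne _ _ _ hqi] at h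

lemma C2 (μ : Fin (k + 1) → ℕ) (i m : Fin (k + 1)) (hmi : m ≠ i) (hμ : μ ∈ XX n k)
    (hi : up μ i ∈ XX n k) (hm : up μ m ∈ XX n k) : up (up μ m) i ∈ XX n k := by
  have hV := mem_XX.mp hμ
  have h1 := (up_mem hV i).mp hi
  rw [up_mem (mem_XX.mp hm)]
  rw [up_ne _ _ _ (Ne.symm hmi)]
  refine ⟨h1.1, fun p hp => ?_⟩
  have h2 := h1.2 p hp
  by_cases hpm : p = m
  · subst hpm; rw [up_self]; omega
  · rw [up_ne _ _ _ hpm]; exact h2

/-- the set of parts -/
noncomputable def sset (μ : Fin (k + 1) → ℕ) : Finset ℕ := (univ.image μ).erase 0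

lemma mem_sset {μ : Fin (k + 1) → ℕ} {x : ℕ} : x ∈ sset μ ↔ x ≠ 0 ∧ ∃ i, μ i = x := by
  simp [sset]

lemma sset_pos {μ : Fin (k + 1) → ℕ} : ∀ x ∈ sset μ, 0 < x := fun x hx =>
  Nat.pos_of_ne_zero (mem_sset.mp hx).1

lemma inj_of_pos {μ : Fin (k + 1) → ℕ} (hμ : VV n k μ) {i j : Fin (k + 1)} (hi : 0 < μ i)
    (hij : μ i = μ j) : i = j := by
  by_contra hne
  rcases lt_or_gt_of_ne hne with h | h
  · rcases hμ.2 i j h with h1 | h1 <;> omega
  · rcases hμ.2 j i h with h1 | h1 <;> omega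

lemma sset_dn {μ : Fin (k + 1) → ℕ} (hμ : VV n k μ) (i : Fin (k + 1)) (hi : 0 < μ i) :
    sset (dn μ i) = (insert (μ i - 1) ((sset μ).erase (μ i))).erase 0 := by
  ext y
  rw [mem_sset, mem_erase, mem_insert, mem_erase, mem_sset]
  constructor
  · rintro ⟨h0, j, hj⟩
    refine ⟨h0, ?_⟩
    by_cases hji : j = i
    · subst hji; rw [dn_self] at hj; exact Or.inl hj.symm
    · rw [dn_ne _ _ _ hji] at hj
      refine Or.inr ⟨?_, h0, j, hj⟩
      intro h
      exact hji (inj_of_pos hμ (by omega) (hj.trans h))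
  · rintro ⟨h0, h | ⟨hne, _, j, hj⟩⟩
    · exact ⟨h0, i, by rw [dn_self]; exact h.symm⟩
    · refine ⟨h0, j, ?_⟩
      rw [dn_ne _ _ _ ?_]
      · exact hj
      · rintro rfl; exact hne hj.symm

lemma sum_Rset {ν : Fin (k + 1) → ℕ} (hν : VV n k ν) (F : ℕ → ℚ) :
    ∑ i ∈ Rset (XX n k) ν, F (ν i) = ∑ x ∈ (sset ν).filter (fun x => x - 1 ∉ sset ν), F x := by
  refine sum_bij (fun i _ => ν i) ?_ ?_ ?_ ?_
  · intro i hi
    rw [mem_Rset, dn_mem hν] at hi
    rw [mem_filter, mem_sset, mem_sset]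
    refine ⟨⟨by omega, i, rfl⟩, ?_⟩
    rintro ⟨h0, j, hj⟩
    have hji : j ≠ i := by rintro rfl; omega
    rcases lt_or_gt_of_ne hji with h | h
    · rcases hν.2 j i h with h1 | h1 <;> omega
    · rcases hi.2 j h with h1 | h1 <;> omega
  · intro i hi j hj hij
    rw [mem_Rset] at hi
    exact inj_of_pos hν hi.1 hij
  · intro x hx
    rw [mem_filter, mem_sset, mem_sset] at hx
    obtain ⟨⟨h0, i, hi⟩, h1⟩ := hx
    refine ⟨i, ?_, hi⟩
    rw [mem_Rset, dn_mem hν]
    refine ⟨by omega, fun q hq => ?_⟩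
    by_contra hcon
    push Not at hcon
    rcases hν.2 i q hq with h2 | h2
    · exact hcon.1 h2
    · apply h1
      exact ⟨by omega, q, by omega⟩
  · intro i _
    rfl

/-- number of chains below -/
noncomputable def ee (μ : Fin (k + 1) → ℕ) : ℚ := EE (sset μ)

lemma sset_zero : sset (0 : Fin (k + 1) → ℕ) = ∅ := by
  ext x
  rw [mem_sset]
  simp only [Pi.zero_apply, exists_const, notMem_empty, iff_false, not_and]
  intro h1 h2
  exact h1 h2.symm

lemma ee_zero : ee (0 : Fin (k + 1) → ℕ) = 1 := by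
  unfold ee; rw [sset_zero, EE_empty]

lemma ee_rec (ν : Fin (k + 1) → ℕ) (hν : ν ∈ XX n k) (h0 : ν ≠ 0) :
    ee ν = ∑ i ∈ Rset (XX n k) ν, ee (dn ν i) := by
  have hV := mem_XX.mp hν
  have hne : (sset ν).Nonempty := by
    by_contra hcon
    apply h0
    funext i
    by_contra h1
    exact hcon ⟨ν i, mem_sset.mpr ⟨h1, i, rfl⟩⟩
  have h1 : ∑ i ∈ Rset (XX n k) ν, ee (dn ν i) = ∑ i ∈ Rset (XX n k) ν,
      (fun x => EE ((insert (x - 1) ((sset ν).erase x)).erase 0)) (ν i) := by
    refine sum_congr rfl fun i hi => ?_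
    unfold ee
    rw [sset_dn hV i (mem_Rset.mp hi).1]
  rw [h1, sum_Rset hV (fun x => EE ((insert (x - 1) ((sset ν).erase x)).erase 0))]
  exact EE_rec _ sset_pos hne

/-- number of chains below with a new part one -/
noncomputable def GG (μ : Fin (k + 1) → ℕ) : ℚ :=
  if 2 ≤ μ (Fin.last k) then EE (insert 1 (sset μ)) else 0

/-- indicator -/
noncomputable def ind (μ : Fin (k + 1) → ℕ) : ℚ := if 2 ≤ μ (Fin.last k) then 1 else 0

lemma GG_rec (ν : Fin (k + 1) → ℕ) (hν : ν ∈ XX n k) :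
    GG ν = ind ν * ee ν + ∑ i ∈ Rset (XX n k) ν, GG (dn ν i) := by
  have hV := mem_XX.mp hν
  by_cases h2 : 2 ≤ ν (Fin.last k)
  swap
  · have h3 : ∀ i ∈ Rset (XX n k) ν, GG (dn ν i) = 0 := by
      intro i _
      unfold GG
      rw [if_neg]
      by_cases hi : Fin.last k = i
      · rw [← hi, dn_self]; omega
      · rw [dn_ne _ _ _ hi]; exact h2
    rw [sum_eq_zero h3]
    simp [GG, ind, h2]
  · have hall : ∀ i, i ≠ Fin.last k → 2 < ν i := by
      intro i hi
      rcases hV.2 i (Fin.last k) (Fin.lt_last_iff_ne_last.mpr hi) with h | h <;> omega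
    have hs : ∀ x ∈ sset ν, 1 < x := by
      intro x hx
      obtain ⟨_, i, hi⟩ := mem_sset.mp hx
      by_cases hil : i = Fin.last k
      · subst hil; omega
      · have := hall i hil; omega
    have h1s : 1 ∉ sset ν := fun h => lt_irrefl _ (hs 1 h)
    have hpos : ∀ x ∈ insert 1 (sset ν), 0 < x := by
      intro x hx
      rcases mem_insert.mp hx with rfl | h
      · exact Nat.one_pos
      · exact (hs x h).trans' Nat.one_pos
    have hrec := EE_rec (insert 1 (sset ν)) hpos ⟨1, mem_insert_self _ _⟩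
    have hG : GG ν = EE (insert 1 (sset ν)) := by unfold GG; rw [if_pos h2]
    have hI : ind ν = 1 := by unfold ind; rw [if_pos h2]
    rw [hG, hI, one_mul, hrec, filter_insert, if_pos, sum_insert]
    · have e1 : ((insert (1 - 1) ((insert 1 (sset ν)).erase 1)).erase 0) = sset ν := by
        rw [erase_insert h1s, Nat.sub_self, erase_insert]
        intro h0; exact absurd (hs 0 h0) (by omega)
      rw [e1]
      congr 1
      have e2 : ∑ i ∈ Rset (XX n k) ν, GG (dn ν i) = ∑ i ∈ Rset (XX n k) ν,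
          (fun x => if x = 2 then 0 else
            EE ((insert (x - 1) ((insert 1 (sset ν)).erase x)).erase 0)) (ν i) := by
        refine sum_congr rfl fun i hi => ?_
        have hi0 := (mem_Rset.mp hi).1
        have hset : insert 1 (sset (dn ν i)) =
            (insert (ν i - 1) ((insert 1 (sset ν)).erase (ν i))).erase 0 := by
          rw [sset_dn hV i hi0]
          have hi1 : 1 < ν i := hs _ (mem_sset.mpr ⟨by omega, i, rfl⟩)
          ext y
          simp only [mem_insert, mem_erase]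
          constructor
          · rintro (rfl | ⟨h0, h | ⟨h, h'⟩⟩)
            · exact ⟨by omega, Or.inr ⟨by omega, Or.inl rfl⟩⟩
            · exact ⟨h0, Or.inl h⟩
            · exact ⟨h0, Or.inr ⟨h, Or.inr h'⟩⟩
          · rintro ⟨h0, h | ⟨h, h' | h'⟩⟩
            · exact Or.inr ⟨h0, Or.inl h⟩
            · exact Or.inl h'
            · exact Or.inr ⟨h0, Or.inr ⟨h, h'⟩⟩
        unfold GG
        beta_reduce
        rw [← hset]
        by_cases hil : i = Fin.last k
        · subst hil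
          rw [dn_self]
          by_cases h3 : ν (Fin.last k) = 2
          · rw [if_neg (by omega), if_pos h3]
          · rw [if_pos (by omega), if_neg h3]
        · rw [dn_ne _ _ _ (Ne.symm hil), if_pos h2, if_neg (by have := hall i hil; omega)]
      rw [e2, sum_Rset hV (fun x => if x = 2 then 0 else
            EE ((insert (x - 1) ((insert 1 (sset ν)).erase x)).erase 0))]
      have e3 : (sset ν).filter (fun x => x - 1 ∉ insert 1 (sset ν)) =
          ((sset ν).filter (fun x => x - 1 ∉ sset ν)).filter (fun x => ¬ x = 2) := by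
        ext x
        simp only [mem_filter, mem_insert, not_or]
        constructor
        · rintro ⟨h, h', h''⟩
          exact ⟨⟨h, h''⟩, fun hx => h' (by omega)⟩
        · rintro ⟨⟨h, h''⟩, hx⟩
          exact ⟨h, by have := hs x h; omega, h''⟩
      rw [e3, sum_filter]
      refine sum_congr rfl fun x _ => ?_
      by_cases hx : x = 2
      · rw [if_neg (not_not.mpr hx), if_pos hx]
      · rw [if_pos hx, if_neg hx]
    · intro h
      exact h1s (mem_filter.mp h).1
    · intro h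
      exact absurd (hpos 0 h) (by omega)

lemma prod_tel (h : 2 * k < n) :
    ∏ i : Fin (k + 1), ((((n - 2 * (i : ℕ) : ℕ) : ℚ) - 1) / (((n - 2 * (i : ℕ) : ℕ) : ℚ) + 1)) =
      ((n : ℚ) - 2 * k - 1) / (n + 1) := by
  rw [Fin.prod_univ_eq_prod_range (fun i : ℕ =>
    ((((n - 2 * i : ℕ) : ℚ) - 1) / (((n - 2 * i : ℕ) : ℚ) + 1)))]
  have key : ∀ t ≤ k, ∏ i ∈ range (t + 1), ((((n - 2 * i : ℕ) : ℚ) - 1) / (((n - 2 * i : ℕ) : ℚ) + 1)) =
      ((n : ℚ) - 2 * t - 1) / (n + 1) := by
    intro t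
    induction t with
    | zero => intro _; simp
    | succ t ih =>
      intro ht
      rw [prod_range_succ, ih (by omega)]
      have h1 : ((n - 2 * (t + 1) : ℕ) : ℚ) = (n : ℚ) - 2 * (t + 1) := by
        rw [Nat.cast_sub (by omega)]; push_cast; ring
      rw [h1]
      have h2 : (2 : ℚ) * t + 2 < n := by
        have : 2 * t + 2 < n := by omega
        exact_mod_cast this
      have h3 : (n : ℚ) + 1 ≠ 0 := by positivity
      have h4 : (n : ℚ) - 2 * (t + 1) + 1 ≠ 0 := by linarith
      push_cast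
      field_simp
      ring
  exact key k le_rfl

lemma sset_lam_sum (h : 2 * k < n) : ∑ x ∈ sset (lam n k), x = ∑ i, lam n k i := by
  have hpos : ∀ i, 0 < lam n k i := by
    intro i; unfold lam; have := i.2; omega
  have hs : sset (lam n k) = univ.image (lam n k) := by
    unfold sset
    rw [erase_eq_of_notMem]
    simp only [mem_image, mem_univ, true_and, not_exists]
    intro i hi
    have := hpos i; omega
  rw [hs, sum_image]
  intro i _ j _ hij
  exact inj_of_pos (mem_XX.mp (lam_mem h)) (hpos i) hij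

lemma sset_lam_prod (h : 2 * k < n) (F : ℕ → ℚ) :
    ∏ x ∈ sset (lam n k), F x = ∏ i, F (lam n k i) := by
  have hpos : ∀ i, 0 < lam n k i := by
    intro i; unfold lam; have := i.2; omega
  have hs : sset (lam n k) = univ.image (lam n k) := by
    unfold sset
    rw [erase_eq_of_notMem]
    simp only [mem_image, mem_univ, true_and, not_exists]
    intro i hi
    have := hpos i; omega
  rw [hs, prod_image]
  intro i _ j _ hij
  exact inj_of_pos (mem_XX.mp (lam_mem h)) (hpos i) hij

lemma GG_lam (h : 2 * k < n) :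
    GG (lam n k) = ee (lam n k) * ((((∑ i, lam n k i : ℕ) : ℚ) + 1) *
      (((n : ℚ) - 2 * k - 1) / (n + 1))) := by
  unfold GG ee
  have hlast : lam n k (Fin.last k) = n - 2 * k := by simp [lam]
  rw [hlast]
  split_ifs with h2
  · rw [EE_insert_one, sset_lam_prod h, sset_lam_sum h]
    · rw [add_comm (1 : ℚ)]
      congr 2
      exact prod_tel h
    · intro x hx
      obtain ⟨_, i, rfl⟩ := mem_sset.mp hx
      unfold lam
      have := i.2
      omega
  · have : (n : ℚ) - 2 * k - 1 = 0 := by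
      have : n = 2 * k + 1 := by omega
      rw [this]; push_cast; ring
    rw [this]; simp

end Pool.Agent.HH39TZ
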