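import Pool.Agent.HH39TZ.Shape

set_option autoImplicit false

/-! The local identity: the down-degree is a combination of toggle differences and of the indicator
of the second box of the last row. -/

namespace Pool.Agent.HH39TZ

open Finset
open scoped Classical

variable {n k : ℕ}

/-- the coefficient of the box number `p` of row `i` -/
noncomputable def cc (n : ℕ) (i p : ℕ) : ℚ :=
  if p = 1 then (2 * (i : ℚ) + 3 - n) / 4 else ((p : ℚ) + 1 - n + 2 * i) / 2

/-- addable term -/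
noncomputable def Ap (n : ℕ) (m : ℕ → ℕ) (i : ℕ) : ℚ :=
  if m i + 1 ≤ n - 2 * i ∧ (i = 0 ∨ m i + 1 < m (i - 1)) then 1 - cc n i (m i + 1) else 0

/-- removable term -/
noncomputable def Rp (n : ℕ) (m : ℕ → ℕ) (i : ℕ) : ℚ :=
  if 0 < m i ∧ (m (i + 1) = 0 ∨ m (i + 1) + 1 < m i) then cc n i (m i) else 0

lemma partial_sum (h : 2 * k < n) (m : ℕ → ℕ) (hm1 : ∀ i ≤ k, m i ≤ n - 2 * i)
    (hm2 : ∀ i, m (i + 1) = 0 ∨ m (i + 1) < m i) (t : ℕ) (ht : t ≤ k) :
    ∑ i ∈ range (t + 1), Ap n m i + ∑ i ∈ range t, Rp n m i =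
      if m t = 0 then ((n : ℚ) + 1) / 4 else ((n : ℚ) - m t - t) / 2 := by
  induction t with
  | zero =>
    rw [sum_range_one, range_zero, sum_empty, add_zero]
    unfold Ap cc
    have h1 := hm1 0 (Nat.zero_le _)
    by_cases h0 : m 0 = 0
    · rw [if_pos h0, h0, if_pos ⟨by omega, Or.inl rfl⟩, if_pos rfl]
      push_cast; ring
    · rw [if_neg h0]
      by_cases h2 : m 0 + 1 ≤ n
      · rw [if_pos ⟨by omega, Or.inl rfl⟩, if_neg (by omega)]
        push_cast; ring
      · rw [if_neg (by omega)]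
        have : n = m 0 := by omega
        rw [this]; simp
  | succ t ih =>
    rw [sum_range_succ (fun i => Ap n m i) (t + 1), sum_range_succ (fun i => Rp n m i) t]
    have ih' := ih (by omega)
    have e1 : ∑ i ∈ range (t + 1), Ap n m i + Ap n m (t + 1) + (∑ i ∈ range t, Rp n m i + Rp n m t) =
        (∑ i ∈ range (t + 1), Ap n m i + ∑ i ∈ range t, Rp n m i) + Rp n m t + Ap n m (t + 1) := by ring
    rw [e1, ih']
    have hb := hm1 (t + 1) ht
    have hb0 := hm1 t (by omega)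
    have hdec := hm2 t
    have hnk : 2 * (t + 1) < n := by omega
    unfold Ap Rp cc
    rw [Nat.add_sub_cancel]
    by_cases h0 : m t = 0
    · have h1 : m (t + 1) = 0 := by omega
      rw [if_pos h0, if_neg (by omega), if_neg (by omega), if_pos h1]
      ring
    · rw [if_neg h0]
      by_cases h1 : m (t + 1) = 0
      · rw [if_pos h1, if_pos ⟨by omega, Or.inl h1⟩]
        by_cases h2 : m t = 1
        · rw [if_pos h2, if_neg (by omega), h2]
          push_cast; ring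
        · rw [if_neg h2, if_pos ⟨by omega, Or.inr (by omega)⟩, if_pos (by omega)]
          push_cast; ring
      · rw [if_neg h1]
        have h3 : m (t + 1) < m t := by omega
        by_cases h4 : m t = m (t + 1) + 1
        · rw [if_neg (by omega), if_neg (by omega), h4]
          push_cast; ring
        · rw [if_pos ⟨by omega, Or.inr (by omega)⟩, if_neg (by omega)]
          by_cases h5 : m (t + 1) + 1 ≤ n - 2 * (t + 1)
          · rw [if_pos ⟨h5, Or.inr (by omega)⟩, if_neg (by omega)]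
            push_cast; ring
          · rw [if_neg (by omega)]
            have h6 : m (t + 1) = n - 2 * (t + 1) := by omega
            have h7 : (m (t + 1) : ℚ) = (n : ℚ) - 2 * (t + 1) := by
              rw [h6, Nat.cast_sub (by omega)]; push_cast; ring
            rw [h7]
            push_cast; ring

lemma total_sum (h : 2 * k < n) (m : ℕ → ℕ) (hm1 : ∀ i ≤ k, m i ≤ n - 2 * i)
    (hm2 : ∀ i, m (i + 1) = 0 ∨ m (i + 1) < m i) (hk : m (k + 1) = 0) :
    ∑ i ∈ range (k + 1), Rp n m i + ∑ i ∈ range (k + 1), Ap n m i =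
      ((n : ℚ) + 1) / 4 - ((n : ℚ) - 2 * k - 1) / 4 * (if 2 ≤ m k then 1 else 0) := by
  rw [sum_range_succ (fun i => Rp n m i) k]
  have h1 := partial_sum h m hm1 hm2 k le_rfl
  have e1 : ∑ i ∈ range k, Rp n m i + Rp n m k + ∑ i ∈ range (k + 1), Ap n m i =
      (∑ i ∈ range (k + 1), Ap n m i + ∑ i ∈ range k, Rp n m i) + Rp n m k := by ring
  rw [e1, h1]
  unfold Rp cc
  by_cases h0 : m k = 0
  · rw [if_pos h0, if_neg (by omega), if_neg (by omega)]
    ring
  · rw [if_neg h0, if_pos ⟨by omega, Or.inl hk⟩]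
    by_cases h2 : m k = 1
    · rw [if_pos h2, if_neg (by omega), h2]
      push_cast; ring
    · rw [if_neg h2, if_pos (by omega)]
      ring

/-- extension by zero -/
noncomputable def ext0 (μ : Fin (k + 1) → ℕ) (i : ℕ) : ℕ := if h : i < k + 1 then μ ⟨i, h⟩ else 0

lemma ext0_fin (μ : Fin (k + 1) → ℕ) (i : Fin (k + 1)) : ext0 μ i = μ i := by
  unfold ext0; rw [dif_pos i.2]

lemma ext0_lt (μ : Fin (k + 1) → ℕ) (i : ℕ) (hi : i < k + 1) : ext0 μ i = μ ⟨i, hi⟩ := by
  unfold ext0; rw [dif_pos hi]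

lemma ext0_ge (μ : Fin (k + 1) → ℕ) (i : ℕ) (hi : ¬ i < k + 1) : ext0 μ i = 0 := by
  unfold ext0; rw [dif_neg hi]

lemma ext0_dec {μ : Fin (k + 1) → ℕ} (hμ : VV n k μ) (i : ℕ) :
    ext0 μ (i + 1) = 0 ∨ ext0 μ (i + 1) < ext0 μ i := by
  by_cases h : i + 1 < k + 1
  · rw [ext0_lt μ (i + 1) h, ext0_lt μ i (by omega)]
    exact hμ.2 ⟨i, by omega⟩ ⟨i + 1, h⟩ (by simp [Fin.lt_def])
  · left; exact ext0_ge μ _ h

lemma mem_R_iff {μ : Fin (k + 1) → ℕ} (hμ : VV n k μ) (i : Fin (k + 1)) :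
    i ∈ Rset (XX n k) μ ↔
      0 < ext0 μ i ∧ (ext0 μ ((i : ℕ) + 1) = 0 ∨ ext0 μ ((i : ℕ) + 1) + 1 < ext0 μ i) := by
  rw [mem_Rset, dn_mem hμ, ext0_fin]
  refine and_congr_right fun h0 => ?_
  constructor
  · intro h
    by_cases hi : (i : ℕ) + 1 < k + 1
    · rw [ext0_lt μ _ hi]
      rcases h ⟨(i : ℕ) + 1, hi⟩ (by simp [Fin.lt_def]) with h1 | h1
      · exact Or.inl h1
      · right; omega
    · left; exact ext0_ge μ _ hi
  · intro h q hq
    have hq' : (i : ℕ) < q := hq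
    have hi : (i : ℕ) + 1 < k + 1 := by have := q.2; omega
    rw [ext0_lt μ _ hi] at h
    by_cases hqe : (q : ℕ) = i + 1
    · have : q = ⟨(i : ℕ) + 1, hi⟩ := Fin.ext hqe
      rw [this]
      omega
    · have h2 := hμ.2 ⟨(i : ℕ) + 1, hi⟩ q (by rw [Fin.lt_def]; simp; omega)
      omega

lemma mem_A_iff {μ : Fin (k + 1) → ℕ} (hμ : VV n k μ) (i : Fin (k + 1)) :
    i ∈ Aset (XX n k) μ ↔ ext0 μ i + 1 ≤ n - 2 * (i : ℕ) ∧
      ((i : ℕ) = 0 ∨ ext0 μ i + 1 < ext0 μ ((i : ℕ) - 1)) := by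
  rw [mem_Aset, up_mem hμ, ext0_fin]
  refine and_congr_right fun _ => ?_
  have hi2 := i.2
  constructor
  · intro h
    by_cases hi : (i : ℕ) = 0
    · exact Or.inl hi
    · right
      rw [ext0_lt μ ((i : ℕ) - 1) (by omega)]
      exact h ⟨(i : ℕ) - 1, by omega⟩ (by rw [Fin.lt_def]; show (i : ℕ) - 1 < (i : ℕ); omega)
  · intro h p hp
    have hp' : (p : ℕ) < i := hp
    rcases h with h | h
    · omega
    · rw [ext0_lt μ ((i : ℕ) - 1) (by omega)] at h
      by_cases hpe : (p : ℕ) = i - 1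
      · have : p = ⟨(i : ℕ) - 1, by omega⟩ := Fin.ext hpe
        rw [this]; exact h
      · have h2 := hμ.2 p ⟨(i : ℕ) - 1, by omega⟩ (by rw [Fin.lt_def]; simp; omega)
        omega

/-- the local identity -/
theorem star (h : 2 * k < n) {μ : Fin (k + 1) → ℕ} (hμ : VV n k μ) :
    ∑ i ∈ Rset (XX n k) μ, cc n i (μ i) + ∑ i ∈ Aset (XX n k) μ, (1 - cc n i (μ i + 1)) =
      ((n : ℚ) + 1) / 4 - ((n : ℚ) - 2 * k - 1) / 4 * ind μ := by
  have h1 := total_sum h (ext0 μ) (fun i hi => by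
    rw [ext0_lt μ i (by omega)]; exact hμ.1 ⟨i, by omega⟩) (ext0_dec hμ)
    (ext0_ge μ (k + 1) (lt_irrefl _))
  have h2 : ∑ i ∈ Rset (XX n k) μ, cc n i (μ i) = ∑ i ∈ range (k + 1), Rp n (ext0 μ) i := by
    rw [← Fin.sum_univ_eq_sum_range (fun i => Rp n (ext0 μ) i) (k + 1)]
    have : Rset (XX n k) μ = univ.filter (fun i => i ∈ Rset (XX n k) μ) := by simp
    rw [this, sum_filter]
    refine sum_congr rfl fun i _ => ?_
    unfold Rp
    by_cases hi : i ∈ Rset (XX n k) μ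
    · rw [if_pos hi, if_pos ((mem_R_iff hμ i).mp hi), ext0_fin]
    · rw [if_neg hi, if_neg (fun h3 => hi ((mem_R_iff hμ i).mpr h3))]
  have h3 : ∑ i ∈ Aset (XX n k) μ, (1 - cc n i (μ i + 1)) = ∑ i ∈ range (k + 1), Ap n (ext0 μ) i := by
    rw [← Fin.sum_univ_eq_sum_range (fun i => Ap n (ext0 μ) i) (k + 1)]
    have : Aset (XX n k) μ = univ.filter (fun i => i ∈ Aset (XX n k) μ) := by simp
    rw [this, sum_filter]
    refine sum_congr rfl fun i _ => ?_
    unfold Ap
    by_cases hi : i ∈ Aset (XX n k) μ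
    · rw [if_pos hi, if_pos ((mem_A_iff hμ i).mp hi), ext0_fin]
    · rw [if_neg hi, if_neg (fun h3 => hi ((mem_A_iff hμ i).mpr h3))]
  rw [h2, h3, h1]
  congr 2
  unfold ind
  have : ext0 μ k = μ (Fin.last k) := by
    rw [ext0_lt μ k (by omega)]; rfl
  rw [this]

end Pool.Agent.HH39TZ
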